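import Pool.Agent.Helper61.XP.Est

/-!
# The asymptotic formula for the moments
-/

set_option autoImplicit false

open scoped ENNReal ComplexConjugate

noncomputable section

namespace Pool.Agent.Helper61.XP

open Pool.Agent.Helper78.DF Pool.Agent.Helper61.XE

variable {G : Type} [Group G] {K : Subgroup G} {J : Type} {φ : J → G → ℝ} {e : G → ℂ}
  {A : Type} [CommRing A] {ι : Type} [Fintype ι] {k : ι → Type}
  [∀ v, NormedField (k v)] [∀ v, IsUltrametricDist (k v)] {emb : ∀ v, A →+* k v}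
  {n : ℕ} {ρ : G →* GLS n k}

theorem list_norm_le {L : List J} {z : J → ℂ} {D : J → ℝ} (h : ∀ j, ‖z j‖ ≤ D j) :
    ‖(L.map z).prod‖ ≤ (L.map D).prod := by
  induction L with
  | nil => simp
  | cons j L ih =>
    rw [List.map_cons, List.prod_cons, List.map_cons, List.prod_cons, norm_mul]
    exact mul_le_mul (h j) ih (norm_nonneg _) ((norm_nonneg _).trans (h j))

/-- the eigenvalues are bounded -/
theorem fam_bd (hA : IsSInt emb) (hρ : Function.Injective ρ)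
    (hK : ∀ κ ∈ K, Bdd (ρ κ) fun _ => 1) (hφ : ∀ j, IsHecke K (φ j)) :
    ∃ D : J → ℝ, (∀ j, 0 ≤ D j) ∧ ∀ (𝔫 : Ideal A) (I : Type) (F : I → G ⧸ K → ℂ)
      (lam : I → J → ℂ), IsONF (prin ρ emb 𝔫) F →
      (∀ i j x, hecke K (φ j) (F i) x = lam i j * F i x) → ∀ i j, ‖lam i j‖ ≤ D j := by
  choose D hD0 hD using fun j => eig_bd (hφ j)
  refine ⟨D, hD0, fun 𝔫 I F lam honf heig i j => ?_⟩
  exact hD j (prin ρ emb 𝔫) (stab_level hA hρ hK (prin_mono ρ emb 𝔫)) (F i) (honf.inv i)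
    (honf.sq i) (honf.one i) (lam i j) (heig i j)

theorem asy (hA : IsSInt emb) (hρ : Function.Injective ρ)
    (hK : ∀ κ ∈ K, Bdd (ρ κ) fun _ => 1) (hφ : ∀ j, IsHecke K (φ j)) (he : IsTyp K e)
    (hvol : Summable fun o : Orb (prin ρ emb (⊤ : Ideal A)) (G ⧸ K) =>
      1 / (sc (prin ρ emb (⊤ : Ideal A)) (Quotient.out o) : ℝ)) {w : G ⧸ K → ℝ}
    (hw0 : ∀ x, 0 ≤ w x) (hwi : ∀ γ ∈ prin ρ emb (⊤ : Ideal A), ∀ x, w (γ • x) = w x)
    (hws : Summable fun o : Orb (prin ρ emb (⊤ : Ideal A)) (G ⧸ K) =>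
      w (Quotient.out o) / (sc (prin ρ emb (⊤ : Ideal A)) (Quotient.out o) : ℝ))
    (L L' : List J) (x₀ : G ⧸ K) {ε : ℝ} (hε : 0 < ε) :
    ∃ N : ℕ, ∀ (𝔫 : Ideal A) (I : Type) [Fintype I] (F : I → G ⧸ K → ℂ) (lam : I → J → ℂ),
      IsFam ρ emb K φ e w 𝔫 F lam → N ≤ Nat.card (A ⧸ 𝔫) →
      0 < (prin ρ emb 𝔫).relIndex (prin ρ emb ⊤) ∧
      ‖∑ i, (L.map (lam i)).prod * conj (L'.map (lam i)).prod -
        mom K φ e L L' x₀ * (vol K (prin ρ emb ⊤) : ℂ) *
          ((prin ρ emb 𝔫).relIndex (prin ρ emb ⊤) : ℂ)‖ ≤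
        ε * (prin ρ emb 𝔫).relIndex (prin ρ emb ⊤) := by
  classical
  obtain ⟨D, hD0, hD⟩ := fam_bd (A := A) (emb := emb) hA hρ hK hφ
  set M : ℂ := mom K φ e L L' x₀ with hM
  set C : ℝ := (L.map D).prod * (L'.map D).prod * esq K e + ‖M‖ + 1 with hC
  have hDL : ∀ M : List J, 0 ≤ (M.map D).prod := by
    intro M
    induction M with
    | nil => simp
    | cons j M ih =>
      rw [List.map_cons, List.prod_cons]
      exact mul_nonneg (hD0 j) ih
  have hC1 : 0 ≤ (L.map D).prod * (L'.map D).prod * esq K e :=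
    mul_nonneg (mul_nonneg (hDL L) (hDL L')) (esq_pos he).le
  have hCpos : 0 < C := by
    have h2 := norm_nonneg M
    rw [hC]
    linarith
  set u : Ideal A → (G ⧸ K) → ℝ := fun 𝔫 x =>
    if Thin K (prin ρ emb 𝔫) φ e L L' x then 1 else 0 with hu
  have hu0 : ∀ 𝔫 x, 0 ≤ u 𝔫 x := by
    intro 𝔫 x
    rw [hu]
    simp only
    split_ifs <;> norm_num
  have hu1 : ∀ 𝔫 x, u 𝔫 x ≤ 1 := by
    intro 𝔫 x
    rw [hu]
    simp only
    split_ifs <;> norm_num
  set g : (G ⧸ K) → ℝ := fun x => w x + 1 with hg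
  have hg0 : ∀ x, 0 ≤ g x := fun x => by
    have := hw0 x
    rw [hg]
    simp only
    linarith
  have hgs : Summable fun o : Orb (prin ρ emb (⊤ : Ideal A)) (G ⧸ K) =>
      g (Quotient.out o) / (sc (prin ρ emb (⊤ : Ideal A)) (Quotient.out o) : ℝ) := by
    refine (hws.add hvol).congr fun o => ?_
    rw [hg]
    simp only
    rw [add_div]
  obtain ⟨N, hN⟩ := mass_zero (fun o : Orb (prin ρ emb (⊤ : Ideal A)) (G ⧸ K) =>
      div_nonneg (hg0 _) (Nat.cast_nonneg _)) hgs (S := Ideal A)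
    (fun 𝔫 => Nat.card (A ⧸ 𝔫)) (fun 𝔫 o => u 𝔫 (Quotient.out o)) (fun 𝔫 o => hu0 𝔫 _)
    (fun 𝔫 o => hu1 𝔫 _) (fun o => by
      obtain ⟨N, hN⟩ := thin_level (A := A) (emb := emb) hA hρ hK hφ he L L' (Quotient.out o)
      exact ⟨N, fun 𝔫 h => if_neg (hN 𝔫 h)⟩) (div_pos hε hCpos)
  refine ⟨max N 1, fun 𝔫 I _ F lam hs hle => ?_⟩
  have hfinA : Finite (A ⧸ 𝔫) := by
    refine Nat.finite_of_card_ne_zero ?_
    have := (le_max_right N 1).trans hle
    omega
  set Γ := prin ρ emb 𝔫 with hΓ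
  set Γ₁ := prin ρ emb (⊤ : Ideal A) with hΓ₁
  have hidx : Γ.relIndex Γ₁ ≠ 0 := prin_index ρ emb 𝔫
  have hidx' : (0 : ℝ) < Γ.relIndex Γ₁ := by exact_mod_cast Nat.pos_of_ne_zero hidx
  refine ⟨Nat.pos_of_ne_zero hidx, ?_⟩
  have hle' : Γ ≤ Γ₁ := prin_mono ρ emb 𝔫
  have hst := stab_level (emb := emb) hA hρ hK hle'
  have hst₁ := stab_level (emb := emb) hA hρ hK (le_refl Γ₁)
  -- masses
  have huinv : ∀ γ ∈ Γ₁, ∀ x, g (γ • x) * u 𝔫 (γ • x) = g x * u 𝔫 x := by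
    intro γ hγ x
    rw [hu, hg]
    simp only
    rw [thin_inv hφ he hγ, hwi γ hγ]
  have hus : Summable fun o : Orb Γ₁ (G ⧸ K) => (g (Quotient.out o) * u 𝔫 (Quotient.out o)) /
      (sc Γ₁ (Quotient.out o) : ℝ) := by
    refine Summable.of_nonneg_of_le (fun o => div_nonneg (mul_nonneg (hg0 _) (hu0 _ _))
      (Nat.cast_nonneg _)) (fun o => ?_) hgs
    exact div_le_div_of_nonneg_right (mul_le_of_le_one_right (hg0 _) (hu1 _ _))
      (Nat.cast_nonneg _)
  obtain ⟨hm1, hm2⟩ := mass_real hle' hidx hst hst₁ (fun x => g x * u 𝔫 x)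
    (fun x => mul_nonneg (hg0 x) (hu0 𝔫 x)) huinv hus
  obtain ⟨hv1, hv2⟩ := mass_real hle' hidx hst hst₁ (fun _ => 1) (fun _ => zero_le_one)
    (fun _ _ _ => rfl) hvol
  have hmass : ∑' o : Orb Γ (G ⧸ K), (g (Quotient.out o) * u 𝔫 (Quotient.out o)) /
      (sc Γ (Quotient.out o) : ℝ) ≤ Γ.relIndex Γ₁ * (ε / C) := by
    rw [hm2]
    refine mul_le_mul_of_nonneg_left ?_ hidx'.le
    refine le_trans (le_of_eq ?_) (hN 𝔫 ((le_max_left _ _).trans hle))
    refine tsum_congr fun o => ?_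
    ring
  -- the sum over the orbits
  set c : I → ℂ := fun i => (L.map (lam i)).prod * conj (L'.map (lam i)).prod with hc
  have hcn : ∀ i, ‖c i‖ ≤ (L.map D).prod * (L'.map D).prod := by
    intro i
    rw [hc]
    simp only
    rw [norm_mul, RCLike.norm_conj]
    exact mul_le_mul (list_norm_le (hD 𝔫 I F lam hs.onf hs.eig i))
      (list_norm_le (hD 𝔫 I F lam hs.onf hs.eig i)) (norm_nonneg _) (hDL L)
  set S : (G ⧸ K) → ℂ := fun x => ∑ i, c i * ((‖F i x‖ ^ 2 : ℝ) : ℂ) with hS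
  have hSb : ∀ x, ‖S x‖ ≤ (L.map D).prod * (L'.map D).prod * (w x * esq K e) := by
    intro x
    rw [hS]
    simp only
    refine (norm_sum_le _ _).trans ?_
    have h1 := pt_bd hst hφ he hs.onf hs.eig hs.typ hs.complete hw0 hs.cusp x
    calc ∑ i, ‖c i * ((‖F i x‖ ^ 2 : ℝ) : ℂ)‖
        ≤ ∑ i, (L.map D).prod * (L'.map D).prod * ‖F i x‖ ^ 2 := by
          refine Finset.sum_le_sum fun i _ => ?_
          rw [norm_mul, Complex.norm_real, Real.norm_of_nonneg (by positivity)]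
          exact mul_le_mul_of_nonneg_right (hcn i) (by positivity)
      _ = (L.map D).prod * (L'.map D).prod * ∑ i, ‖F i x‖ ^ 2 := by rw [Finset.mul_sum]
      _ ≤ _ := mul_le_mul_of_nonneg_left h1 (mul_nonneg (hDL L) (hDL L'))
  have hSM : ∀ x, ‖S x - M‖ ≤ C * (g x * u 𝔫 x) := by
    intro x
    by_cases hx : Thin K Γ φ e L L' x
    · have : u 𝔫 x = 1 := if_pos hx
      rw [this, mul_one]
      refine (norm_sub_le _ _).trans ?_
      have h1 := hSb x
      have h2 : (L.map D).prod * (L'.map D).prod * (w x * esq K e) =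
          ((L.map D).prod * (L'.map D).prod * esq K e) * w x := by ring
      rw [h2] at h1
      have h3 := norm_nonneg M
      have h4 := hw0 x
      have h5 : 0 ≤ ‖M‖ * w x := mul_nonneg h3 h4
      rw [hC, hg]
      simp only
      nlinarith
    · have hux : u 𝔫 x = 0 := if_neg hx
      have h1 : S x = M := by
        have h2 := pt_exp hst hφ he hs.onf hs.eig hs.typ hs.complete L L' x
        have hKL : ∀ M : List J, ∀ κ' ∈ M.map (fun j => hker K (φ j)), KerOK Γ κ' := by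
          intro M κ' h
          obtain ⟨j, _, rfl⟩ := List.mem_map.1 h
          exact kerOK (hφ j) _
        rw [ip_thick hst (by
          rw [heckes_ops]
          exact ops_fin _ (hKL L') (fx_supp he x))] at h2
        · rw [hS, hM, mom_const hφ he L L' x₀ x]
          exact h2
        · intro γ hγ y h3 h4
          by_contra hne
          exact hx ⟨γ, hγ, hne, y, h3, h4⟩
      rw [h1, sub_self, norm_zero, hux, mul_zero, mul_zero]
  have hsumF : ∀ i, Summable fun o : Orb Γ (G ⧸ K) =>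
      c i * (((‖F i (Quotient.out o)‖ ^ 2 / (sc Γ (Quotient.out o) : ℝ) : ℝ)) : ℂ) := fun i =>
    (Complex.ofRealCLM.summable (hs.onf.sq i)).mul_left (c i)
  have hT : ∑ i, c i = ∑' o : Orb Γ (G ⧸ K), S (Quotient.out o) / (sc Γ (Quotient.out o) : ℂ) := by
    have e1 : ∀ i, c i = ∑' o : Orb Γ (G ⧸ K),
        c i * (((‖F i (Quotient.out o)‖ ^ 2 / (sc Γ (Quotient.out o) : ℝ) : ℝ)) : ℂ) := by
      intro i
      rw [tsum_mul_left, ← Complex.ofReal_tsum]
      have h1 : nsq Γ (F i) = 1 := by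
        have h2 := hs.onf.one i
        rw [nsq_ip] at h2
        exact_mod_cast h2
      have h3 : ∑' o : Orb Γ (G ⧸ K), ‖F i (Quotient.out o)‖ ^ 2 /
          (sc Γ (Quotient.out o) : ℝ) = 1 := h1
      rw [h3]
      simp
    rw [Finset.sum_congr rfl fun i _ => e1 i, ← Summable.tsum_finsetSum fun i _ => hsumF i]
    refine tsum_congr fun o => ?_
    rw [hS]
    simp only
    rw [Finset.sum_div]
    refine Finset.sum_congr rfl fun i _ => ?_
    push_cast
    ring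
  have hST : Summable fun o : Orb Γ (G ⧸ K) => S (Quotient.out o) / (sc Γ (Quotient.out o) : ℂ) := by
    refine (summable_sum fun i (_ : i ∈ Finset.univ) => hsumF i).congr fun o => ?_
    rw [hS]
    simp only
    rw [Finset.sum_div]
    refine Finset.sum_congr rfl fun i _ => ?_
    push_cast
    ring
  have hMs : Summable fun o : Orb Γ (G ⧸ K) => M * ((1 / (sc Γ (Quotient.out o) : ℝ) : ℝ) : ℂ) :=
    (Complex.ofRealCLM.summable hv1).mul_left M
  have hMT : M * (vol K Γ₁ : ℂ) * (Γ.relIndex Γ₁ : ℂ) =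
      ∑' o : Orb Γ (G ⧸ K), M * ((1 / (sc Γ (Quotient.out o) : ℝ) : ℝ) : ℂ) := by
    rw [tsum_mul_left, ← Complex.ofReal_tsum, hv2]
    unfold vol
    push_cast
    ring
  rw [hT, hMT, ← hST.tsum_sub hMs]
  have hterm : ∀ o : Orb Γ (G ⧸ K), ‖S (Quotient.out o) / (sc Γ (Quotient.out o) : ℂ) -
      M * ((1 / (sc Γ (Quotient.out o) : ℝ) : ℝ) : ℂ)‖ ≤
      C * ((g (Quotient.out o) * u 𝔫 (Quotient.out o)) / (sc Γ (Quotient.out o) : ℝ)) := by
    intro o
    have e1 : S (Quotient.out o) / (sc Γ (Quotient.out o) : ℂ) -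
        M * ((1 / (sc Γ (Quotient.out o) : ℝ) : ℝ) : ℂ) =
        (S (Quotient.out o) - M) / (sc Γ (Quotient.out o) : ℂ) := by
      push_cast
      ring
    rw [e1, norm_div, Complex.norm_natCast, ← mul_div_assoc]
    exact div_le_div_of_nonneg_right (hSM _) (Nat.cast_nonneg _)
  have hsn : Summable fun o : Orb Γ (G ⧸ K) =>
      C * ((g (Quotient.out o) * u 𝔫 (Quotient.out o)) / (sc Γ (Quotient.out o) : ℝ)) :=
    hm1.mul_left C
  calc _ ≤ ∑' o : Orb Γ (G ⧸ K), C * ((g (Quotient.out o) * u 𝔫 (Quotient.out o)) /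
          (sc Γ (Quotient.out o) : ℝ)) := tsum_of_norm_bounded hsn.hasSum hterm
    _ = C * ∑' o : Orb Γ (G ⧸ K), (g (Quotient.out o) * u 𝔫 (Quotient.out o)) /
          (sc Γ (Quotient.out o) : ℝ) := tsum_mul_left
    _ ≤ C * (Γ.relIndex Γ₁ * (ε / C)) := mul_le_mul_of_nonneg_left hmass hCpos.le
    _ = ε * Γ.relIndex Γ₁ := by
        field_simp

end Pool.Agent.Helper61.XP
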