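import Pool.Agent.Helper61.XE.Defs

/-!
# The definitions used by the density theorem

They are added to those of `Pool.Agent.Helper78.DF.Defs` and `Pool.Agent.Helper61.XE.Defs`.
-/

set_option autoImplicit false

open scoped ComplexConjugate

noncomputable section

namespace Pool.Agent.Helper61.XP

open Pool.Agent.Helper78.DF Pool.Agent.Helper61.XE

variable {G : Type} [Group G]

/-- The convolution operator attached to `e`: `(e F)(g K)` is the sum of `e(g⁻¹ h) F(h K)` over the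
cosets `h K`. -/
def conv (K : Subgroup G) (e : G → ℂ) (F : G ⧸ K → ℂ) (x : G ⧸ K) : ℂ :=
  ∑ᶠ y : G ⧸ K, e (x.out⁻¹ * y.out) * F y

/-- `e` is a nonzero `K`-biinvariant function whose support is a finite union of left cosets. -/
structure IsTyp (K : Subgroup G) (e : G → ℂ) : Prop where
  left : ∀ κ ∈ K, ∀ g, e (κ * g) = e g
  right : ∀ κ ∈ K, ∀ g, e (g * κ) = e g
  fin : {y : G ⧸ K | e y.out ≠ 0}.Finite
  ne : ∃ g, e g ≠ 0

/-- The sum of `|e(g)|²` over the cosets `g K`. -/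
def esq (K : Subgroup G) (e : G → ℂ) : ℝ := ∑ᶠ y : G ⧸ K, ‖e y.out‖ ^ 2

/-- The points `z` for which the roots of the polynomial `x ^ N + ∑ E_k(z) x ^ k` have at most `m`
different unit parts (`β / |β|`; the root `0` counts as being proportional to all others). -/
def Sing {J : Type} (N m : ℕ) (E : Fin N → (J → ℂ) → ℂ) : Set (J → ℂ) :=
  {z | ∃ β : Fin N → ℂ, (∀ x : ℂ, ∏ j, (x - β j) = x ^ N + ∑ k, E k z * x ^ (k : ℕ)) ∧
    ∃ p : Fin N → Fin m, ∀ j k, p j = p k → β j * ‖β k‖ = β k * ‖β j‖}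

/-- The volume of `Γ \ G / K`: the sum of `1 / |Γ_x|` over the orbits. -/
def vol (K Γ : Subgroup G) : ℝ := ∑' o : Orb Γ (G ⧸ K), 1 / (sc Γ (Quotient.out o) : ℝ)

/-- `F_i`, `i ∈ I`, is the complete system of the eigenforms of type `e` of level `𝔫`: the `F_i` are
orthonormal in `L²(Γ \ G / K)`, `Γ = prin ρ emb 𝔫`, they are eigenfunctions of the Hecke operators
attached to `φ_j` with the eigenvalues `lam i j`, `e F_i = F_i`, and `e Φ = 0` for every `Φ` in
`L²(Γ \ G / K)` which is orthogonal to all `F_i`. They are cuspidal in the following sense: they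
vanish at all points `x = g K` for which more than `w x` elements `γ` of `Γ` have the property that
`g E` and `γ g E` meet, where `E` is the support of `e`. -/
structure IsFam {A : Type} [CommRing A] {ι : Type} {k : ι → Type} [∀ v, NormedField (k v)] {n : ℕ}
    (ρ : G →* GLS n k) (emb : ∀ v, A →+* k v)
    (K : Subgroup G) {J : Type} (φ : J → G → ℝ) (e : G → ℂ) (w : G ⧸ K → ℝ) (𝔫 : Ideal A)
    {I : Type}
    (F : I → G ⧸ K → ℂ) (lam : I → J → ℂ) : Prop where
  onf : IsONF (prin ρ emb 𝔫) F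
  eig : ∀ i j x, hecke K (φ j) (F i) x = lam i j * F i x
  typ : ∀ i x, conv K e (F i) x = F i x
  complete : ∀ Φ : G ⧸ K → ℂ, (∀ γ ∈ prin ρ emb 𝔫, ∀ x, Φ (γ • x) = Φ x) →
    (Summable fun o : Orb (prin ρ emb 𝔫) (G ⧸ K) =>
      ‖Φ (Quotient.out o)‖ ^ 2 / (sc (prin ρ emb 𝔫) (Quotient.out o) : ℝ)) →
    (∀ i, ip (prin ρ emb 𝔫) Φ (F i) = 0) → ∀ x, conv K e Φ x = 0
  cusp : ∀ i x, F i x ≠ 0 → (Nat.card {γ : prin ρ emb 𝔫 // ∃ y : G ⧸ K,
    e (x.out⁻¹ * y.out) ≠ 0 ∧ e (x.out⁻¹ * (γ • y).out) ≠ 0} : ℝ) ≤ w x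

end Pool.Agent.Helper61.XP
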