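import Pool.Agent.Helper61.XP.Mass

/-!
# The asymptotic formula for the moments
-/

set_option autoImplicit false

open scoped ENNReal ComplexConjugate

noncomputable section

namespace Pool.Agent.Helper61.XP

open Pool.Agent.Helper78.DF Pool.Agent.Helper61.XE

section bound
variable {G : Type} [Group G] {K Γ : Subgroup G} {J : Type} {φ : J → G → ℝ} {e : G → ℂ} {w : G ⧸ K → ℝ}
  {I : Type} [Fintype I] {F : I → G ⧸ K → ℂ} {lam : I → J → ℂ}

/-- the pointwise formula -/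
theorem pt_exp (hfin : ∀ x : G ⧸ K, Finite (MulAction.stabilizer Γ x))
    (hφ : ∀ j, IsHecke K (φ j)) (he : IsTyp K e) (hF : IsONF Γ F)
    (hlam : ∀ i j x, hecke K (φ j) (F i) x = lam i j * F i x)
    (htyp : ∀ i x, conv K e (F i) x = F i x)
    (hcomp : ∀ Φ : G ⧸ K → ℂ, (∀ γ ∈ Γ, ∀ x, Φ (γ • x) = Φ x) → Sq Γ Φ →
      (∀ i, ip Γ Φ (F i) = 0) → ∀ x, conv K e Φ x = 0)
    (L L' : List J) (x : G ⧸ K) :
    ∑ i, (L.map (lam i)).prod * conj (L'.map (lam i)).prod * ((‖F i x‖ ^ 2 : ℝ) : ℂ) =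
      ip Γ (tr Γ (heckes K φ L (fx K e x))) (tr Γ (heckes K φ L' (fx K e x))) := by
  have hKL : ∀ M : List J, ∀ κ' ∈ M.map (fun j => hker K (φ j)), KerOK Γ κ' := by
    intro M κ' h
    obtain ⟨j, _, rfl⟩ := List.mem_map.1 h
    exact kerOK (hφ j) _
  have h1 := sys_exp (Γ := Γ) hfin (κ := fun j => hker K (φ j)) (fun j => kerOK (hφ j) Γ) hF
    (fun i j => funext fun x => hlam i j x) (fx_supp he x) (fun Φ hΦ hsq h0 => by
      rw [fx_conv, hcomp Φ hΦ hsq h0 x, map_zero]) L L'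
  rw [ops_tr hfin _ (hKL L) (fx_supp he x), ops_tr hfin _ (hKL L') (fx_supp he x)] at h1
  rw [heckes_ops, heckes_ops, ← h1]
  refine Finset.sum_congr rfl fun i _ => ?_
  rw [fx_conv, htyp, RCLike.norm_conj]

/-- the uniform bound -/
theorem pt_bd (hfin : ∀ x : G ⧸ K, Finite (MulAction.stabilizer Γ x))
    (hφ : ∀ j, IsHecke K (φ j)) (he : IsTyp K e) (hF : IsONF Γ F)
    (hlam : ∀ i j x, hecke K (φ j) (F i) x = lam i j * F i x)
    (htyp : ∀ i x, conv K e (F i) x = F i x)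
    (hcomp : ∀ Φ : G ⧸ K → ℂ, (∀ γ ∈ Γ, ∀ x, Φ (γ • x) = Φ x) → Sq Γ Φ →
      (∀ i, ip Γ Φ (F i) = 0) → ∀ x, conv K e Φ x = 0)
    (hw0 : ∀ x, 0 ≤ w x)
    (hcusp : ∀ i x, F i x ≠ 0 → (Nat.card {γ : Γ // ∃ y : G ⧸ K,
      e (x.out⁻¹ * y.out) ≠ 0 ∧ e (x.out⁻¹ * (γ • y).out) ≠ 0} : ℝ) ≤ w x) (x : G ⧸ K) :
    ∑ i, ‖F i x‖ ^ 2 ≤ w x * esq K e := by
  classical
  by_cases hx : ∃ i, F i x ≠ 0
  swap
  · push Not at hx
    rw [Finset.sum_eq_zero fun i _ => by rw [hx i]; simp]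
    exact mul_nonneg (hw0 x) (esq_pos he).le
  obtain ⟨i₀, hi₀⟩ := hx
  have hB := hcusp i₀ x hi₀
  set h : G ⧸ K → ℂ := fx K e x with hh
  have hhf : (Function.support h).Finite := fx_supp he x
  have h1 := pt_exp hfin hφ he hF hlam htyp hcomp [] [] x
  have h2 : heckes K φ [] (fx K e x) = h := rfl
  rw [h2, unfold_l Γ hfin (tr_inv Γ h) hhf] at h1
  simp only [List.map_nil, List.prod_nil, map_one, mul_one, one_mul] at h1
  -- the relevant elements
  have hR : {γ : Γ | ∃ y : G ⧸ K, h y ≠ 0 ∧ h (γ • y) ≠ 0}.Finite := by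
    refine (hhf.biUnion fun y _ => tr_supp Γ hfin hhf y).subset ?_
    rintro γ ⟨y, hy1, hy2⟩
    simp only [Set.mem_iUnion]
    exact ⟨y, hy1, hy2⟩
  have hRc : (hR.toFinset.card : ℝ) ≤ w x := by
    have h3 : Nat.card {γ : Γ // ∃ y : G ⧸ K,
        e (x.out⁻¹ * y.out) ≠ 0 ∧ e (x.out⁻¹ * (γ • y).out) ≠ 0} = hR.toFinset.card := by
      rw [← Nat.card_eq_card_finite_toFinset hR]
      refine Nat.card_congr (Equiv.subtypeEquivRight fun γ => ?_)
      have h4 : ∀ z : G ⧸ K, h z ≠ 0 ↔ e (x.out⁻¹ * z.out) ≠ 0 := by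
        intro z
        rw [hh]
        unfold fx
        rw [Ne, map_eq_zero]
      constructor
      · rintro ⟨y, hy1, hy2⟩
        exact ⟨y, (h4 _).2 hy1, (h4 _).2 hy2⟩
      · rintro ⟨y, hy1, hy2⟩
        exact ⟨y, (h4 _).1 hy1, (h4 _).1 hy2⟩
    rw [h3] at hB
    exact hB
  set N₀ : ℝ := esq K e with hN₀
  have hsq : ∀ γ : Γ, ∑ y ∈ hhf.toFinset, ‖h (γ • y)‖ ^ 2 ≤ N₀ := by
    intro γ
    have e1 : N₀ = ∑ᶠ y, ‖h (γ • y)‖ ^ 2 := by
      rw [hN₀, ← fx_sq he x, ← finsum_comp_equiv (MulAction.toPerm γ : Equiv.Perm (G ⧸ K))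
        (f := fun y => ‖fx K e x y‖ ^ 2)]
      rfl
    have hfs : (Function.support fun y : G ⧸ K => h (γ • y)).Finite :=
      hhf.preimage (MulAction.injective γ).injOn
    rw [e1, finsum_eq_sum_of_support_subset (s := hhf.toFinset ∪ hfs.toFinset)]
    · exact Finset.sum_le_sum_of_subset_of_nonneg Finset.subset_union_left
        fun y _ _ => by positivity
    · intro y hy
      rw [Function.mem_support] at hy
      rw [Finset.coe_union]
      right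
      rw [Set.Finite.coe_toFinset]
      intro h0
      apply hy
      show ‖h (γ • y)‖ ^ 2 = 0
      have h0' : h (γ • y) = 0 := h0
      rw [h0']
      simp
  have htr : ∀ y ∈ hhf.toFinset, ‖tr Γ h y‖ ≤ ∑ γ ∈ hR.toFinset, ‖h (γ • y)‖ := by
    intro y hy
    rw [Set.Finite.mem_toFinset, Function.mem_support] at hy
    have e1 : tr Γ h y = ∑ γ ∈ hR.toFinset, h (γ • y) := by
      unfold tr
      refine finsum_eq_sum_of_support_subset _ ?_
      intro γ hγ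
      rw [Set.Finite.coe_toFinset]
      exact ⟨y, hy, hγ⟩
    rw [e1]
    exact norm_sum_le _ _
  have h3 : ‖∑ᶠ y, h y * conj (tr Γ h y)‖ ≤ w x * N₀ := by
    rw [finsum_eq_sum_of_support_subset (s := hhf.toFinset)]
    · calc ‖∑ y ∈ hhf.toFinset, h y * conj (tr Γ h y)‖
          ≤ ∑ y ∈ hhf.toFinset, ‖h y‖ * ∑ γ ∈ hR.toFinset, ‖h (γ • y)‖ := by
            refine (norm_sum_le _ _).trans (Finset.sum_le_sum fun y hy => ?_)
            rw [norm_mul, RCLike.norm_conj]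
            exact mul_le_mul_of_nonneg_left (htr y hy) (norm_nonneg _)
        _ = ∑ γ ∈ hR.toFinset, ∑ y ∈ hhf.toFinset, ‖h y‖ * ‖h (γ • y)‖ := by
            simp_rw [Finset.mul_sum]
            exact Finset.sum_comm
        _ ≤ ∑ γ ∈ hR.toFinset, N₀ := by
            refine Finset.sum_le_sum fun γ _ => ?_
            have h4 : ∑ y ∈ hhf.toFinset, ‖h y‖ * ‖h (γ • y)‖ ≤
                ∑ y ∈ hhf.toFinset, (‖h y‖ ^ 2 + ‖h (γ • y)‖ ^ 2) / 2 := by
              refine Finset.sum_le_sum fun y _ => ?_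
              nlinarith [sq_nonneg (‖h y‖ - ‖h (γ • y)‖)]
            refine h4.trans ?_
            rw [← Finset.sum_div, Finset.sum_add_distrib]
            have h5 := hsq γ
            have h6 := hsq 1
            simp only [one_smul] at h6
            linarith
        _ = hR.toFinset.card * N₀ := by rw [Finset.sum_const, nsmul_eq_mul]
        _ ≤ w x * N₀ := mul_le_mul_of_nonneg_right hRc (esq_pos he).le
    · intro y hy
      rw [Function.mem_support] at hy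
      simpa using left_ne_zero_of_mul hy
  rw [← h1] at h3
  have h4 : ‖∑ i, ((‖F i x‖ ^ 2 : ℝ) : ℂ)‖ = ∑ i, ‖F i x‖ ^ 2 := by
    rw [← Complex.ofReal_sum, Complex.norm_real, Real.norm_of_nonneg]
    exact Finset.sum_nonneg fun i _ => by positivity
  rw [h4] at h3
  exact h3

end bound

section thin
variable {G : Type} [Group G] {K : Subgroup G} {J : Type} {φ : J → G → ℝ} {e : G → ℂ}

/-- the thin points -/
def Thin (K Γ : Subgroup G) (φ : J → G → ℝ) (e : G → ℂ) (L L' : List J) (x : G ⧸ K) : Prop :=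
  ∃ γ ∈ Γ, γ ≠ 1 ∧ ∃ y : G ⧸ K, heckes K φ L (fx K e x) (γ • y) ≠ 0 ∧
    heckes K φ L' (fx K e x) y ≠ 0

variable {A : Type} [CommRing A] {ι : Type} [Fintype ι] {k : ι → Type}
    [∀ v, NormedField (k v)] [∀ v, IsUltrametricDist (k v)] {emb : ∀ v, A →+* k v}
    {n : ℕ} {ρ : G →* GLS n k}

omit [Fintype ι] [∀ v, IsUltrametricDist (k v)] in
theorem thin_inv' (hφ : ∀ j, IsHecke K (φ j)) (he : IsTyp K e) {𝔫 : Ideal A} {L L' : List J}
    {η : G} (hη : η ∈ prin ρ emb ⊤) {x : G ⧸ K}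
    (h : Thin K (prin ρ emb 𝔫) φ e L L' (η • x)) : Thin K (prin ρ emb 𝔫) φ e L L' x := by
  obtain ⟨γ, hγ, hne, y, h1, h2⟩ := h
  refine ⟨η⁻¹ * γ * η, prin_conj ρ emb 𝔫 hη hγ, ?_, η⁻¹ • y, ?_, ?_⟩
  · intro h0
    apply hne
    calc γ = η * (η⁻¹ * γ * η) * η⁻¹ := by group
      _ = 1 := by rw [h0]; group
  · have e1 : (η⁻¹ * γ * η) • (η⁻¹ • y) = η⁻¹ • (γ • y) := by
      rw [← mul_smul, ← mul_smul]
      congr 1
      group
    rw [e1]
    have e2 : x = η⁻¹ • (η • x) := (inv_smul_smul η x).symm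
    rw [e2, heckes_fx hφ he]
    exact h1
  · have e2 : x = η⁻¹ • (η • x) := (inv_smul_smul η x).symm
    rw [e2, heckes_fx hφ he]
    exact h2

omit [Fintype ι] [∀ v, IsUltrametricDist (k v)] in
theorem thin_inv (hφ : ∀ j, IsHecke K (φ j)) (he : IsTyp K e) {𝔫 : Ideal A} {L L' : List J}
    {η : G} (hη : η ∈ prin ρ emb ⊤) {x : G ⧸ K} :
    Thin K (prin ρ emb 𝔫) φ e L L' (η • x) ↔ Thin K (prin ρ emb 𝔫) φ e L L' x := by
  refine ⟨thin_inv' hφ he hη, fun h => ?_⟩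
  refine thin_inv' hφ he ((prin ρ emb ⊤).inv_mem hη) ?_
  rw [inv_smul_smul]
  exact h

/-- an element different from `1` is in the principal congruence subgroups of small norm only -/
theorem elem_level (hA : IsSInt emb) (hρ : Function.Injective ρ) {γ : G} (hne : γ ≠ 1) :
    ∃ N : ℕ, ∀ 𝔫 : Ideal A, N ≤ Nat.card (A ⧸ 𝔫) → γ ∉ prin ρ emb 𝔫 := by
  by_cases hγ : γ ∈ prin ρ emb (⊤ : Ideal A)
  swap
  · exact ⟨0, fun 𝔫 _ h => hγ (prin_mono ρ emb 𝔫 h)⟩
  obtain ⟨M, _, hM⟩ := mem_prin.1 hγ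
  have h1 : ρ γ ≠ 1 := fun h => hne (hρ (h.trans (map_one ρ).symm))
  have h2 : ∃ v i j, (ρ γ v).1 i j ≠ (1 : Matrix (Fin n) (Fin n) (k v)) i j := by
    by_contra hcon
    push Not at hcon
    exact h1 (funext fun v => Units.ext (Matrix.ext fun i j => hcon v i j))
  obtain ⟨v, i, j, hij⟩ := h2
  have hinj : ∀ b : A, emb v b = 0 → b = 0 := by
    intro b hb
    by_contra hb0
    obtain ⟨hf, hp⟩ := hA.prod b hb0
    rw [Finset.prod_eq_zero (Finset.mem_univ v) (by rw [hb, norm_zero])] at hp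
    have : Nat.card (A ⧸ Ideal.span {b}) ≠ 0 := Nat.card_pos.ne'
    exact this (by exact_mod_cast hp.symm)
  set a : A := M.1 i j - (1 : Matrix (Fin n) (Fin n) A) i j with ha
  have ha0 : a ≠ 0 := by
    intro h0
    apply hij
    rw [hM v i j]
    have h3 : M.1 i j = (1 : Matrix (Fin n) (Fin n) A) i j := sub_eq_zero.1 h0
    rw [h3, Matrix.one_apply, Matrix.one_apply]
    split_ifs <;> simp
  obtain ⟨hf, _⟩ := hA.prod a ha0
  refine ⟨Nat.card (A ⧸ Ideal.span {a}) + 1, fun 𝔫 hN h => ?_⟩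
  obtain ⟨M', hM'1, hM'2⟩ := mem_prin.1 h
  have h4 : M'.1 i j = M.1 i j := by
    refine sub_eq_zero.1 (hinj _ ?_)
    rw [map_sub, ← hM v i j, ← hM'2 v i j, sub_self]
  have h5 : a ∈ 𝔫 := by
    rw [ha, ← h4]
    exact hM'1 i j
  have h6 := card_le h5 hf
  omega

/-- a point is thin for small levels only -/
theorem thin_level (hA : IsSInt emb) (hρ : Function.Injective ρ)
    (hK : ∀ κ ∈ K, Bdd (ρ κ) fun _ => 1) (hφ : ∀ j, IsHecke K (φ j)) (he : IsTyp K e)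
    (L L' : List J) (x : G ⧸ K) :
    ∃ N : ℕ, ∀ 𝔫 : Ideal A, N ≤ Nat.card (A ⧸ 𝔫) →
      ¬ Thin K (prin ρ emb 𝔫) φ e L L' x := by
  classical
  have hst := stab_level (emb := emb) hA hρ hK (le_refl (prin ρ emb (⊤ : Ideal A)))
  have hKL : ∀ M : List J, ∀ κ' ∈ M.map (fun j => hker K (φ j)),
      KerOK (prin ρ emb (⊤ : Ideal A)) κ' := by
    intro M κ' h
    obtain ⟨j, _, rfl⟩ := List.mem_map.1 h
    exact kerOK (hφ j) _
  have hs : ∀ M : List J, (Function.support (heckes K φ M (fx K e x))).Finite := by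
    intro M
    rw [heckes_ops]
    exact ops_fin _ (hKL M) (fx_supp he x)
  have hR : {γ : prin ρ emb (⊤ : Ideal A) | ∃ y : G ⧸ K, heckes K φ L' (fx K e x) y ≠ 0 ∧
      heckes K φ L (fx K e x) (γ • y) ≠ 0}.Finite := by
    refine ((hs L').biUnion fun y _ => tr_supp _ hst (hs L) y).subset ?_
    rintro γ ⟨y, hy1, hy2⟩
    simp only [Set.mem_iUnion]
    exact ⟨y, hy1, hy2⟩
  have hN : ∀ γ : prin ρ emb (⊤ : Ideal A), ∃ N : ℕ, (γ : G) ≠ 1 →
      ∀ 𝔫 : Ideal A, N ≤ Nat.card (A ⧸ 𝔫) → (γ : G) ∉ prin ρ emb 𝔫 := by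
    intro γ
    by_cases h : (γ : G) = 1
    · exact ⟨0, fun h' => absurd h h'⟩
    · obtain ⟨N, hN⟩ := elem_level hA hρ h
      exact ⟨N, fun _ => hN⟩
  choose N hN using hN
  refine ⟨hR.toFinset.sup N, fun 𝔫 hle => ?_⟩
  rintro ⟨γ, hγ, hne, y, h1, h2⟩
  set γ' : prin ρ emb (⊤ : Ideal A) := ⟨γ, prin_mono ρ emb 𝔫 hγ⟩ with hγ'
  have hmem : γ' ∈ hR.toFinset := by
    rw [Set.Finite.mem_toFinset]
    exact ⟨y, h2, h1⟩
  exact hN γ' hne 𝔫 ((Finset.le_sup hmem).trans hle) hγ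

end thin

end Pool.Agent.Helper61.XP
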