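import Pool.Agent.Helper61.XE.Supp

/-!
# Limits of measures whose moments converge
-/

set_option autoImplicit false

open scoped ENNReal ComplexConjugate Topology
open MeasureTheory Filter

noncomputable section

namespace Pool.Agent.Helper61.XP

open Pool.Agent.Helper61.XE

variable {J : Type} [Fintype J] (D : J → ℝ)

theorem limit2 {P : ℕ → Measure (Box D) → Prop}
    (hprob : ∀ N m, P N m → IsProbabilityMeasure m) {c : List J → List J → ℂ}
    (hconv : ∀ L L' : List J, ∀ ε : ℝ, 0 < ε → ∃ N₀ : ℕ, ∀ N ≥ N₀, ∀ m, P N m →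
      ‖∫ z, mon L L' z.1 ∂m - c L L'‖ ≤ ε)
    (hinf : ∀ N : ℕ, ∃ N' ≥ N, ∃ m, P N' m) :
    ∃ μ : Measure (Box D), IsProbabilityMeasure μ ∧
      (∀ L L' : List J, ∫ z, mon L L' z.1 ∂μ = c L L') ∧
      ∀ g : C(Box D, ℝ), ∀ ε : ℝ, 0 < ε → ∃ N₀ : ℕ, ∀ N ≥ N₀, ∀ m, P N m →
        |∫ z, g z ∂m - ∫ z, g z ∂μ| ≤ ε := by
  classical
  -- a limit point
  choose N' hN' m hm using hinf
  set ms : ℕ → ProbabilityMeasure (Box D) := fun k => ⟨m k, hprob _ _ (hm k)⟩ with hms
  set U : Ultrafilter (ProbabilityMeasure (Box D)) := (hyperfilter ℕ).map ms with hU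
  have hlim : Tendsto ms (hyperfilter ℕ) (𝓝 U.lim) := by
    have h1 := U.le_nhds_lim
    exact h1
  have hμ : IsProbabilityMeasure (U.lim : Measure (Box D)) := inferInstance
  have hmom : ∀ L L' : List J, ∫ z, mon L L' z.1 ∂(U.lim : Measure (Box D)) = c L L' := by
    intro L L'
    have h2 := (ProbabilityMeasure.tendsto_iff_forall_integral_rclike_tendsto ℂ).1 hlim
      (BoundedContinuousFunction.mkOfCompact (monC D (L, L')))
    have h3 : Tendsto (fun k => ∫ z, (BoundedContinuousFunction.mkOfCompact (monC D (L, L'))) z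
        ∂(ms k : Measure (Box D))) (hyperfilter ℕ) (𝓝 (c L L')) := by
      have h5 : (hyperfilter ℕ : Filter ℕ) ≤ atTop := Nat.hyperfilter_le_atTop
      refine Tendsto.mono_left ?_ h5
      rw [Metric.tendsto_atTop]
      intro ε hε
      obtain ⟨N₀, hN₀⟩ := hconv L L' (ε / 2) (half_pos hε)
      refine ⟨N₀, fun k hk => ?_⟩
      rw [dist_eq_norm]
      exact lt_of_le_of_lt (hN₀ (N' k) (le_trans hk (hN' k)) (m k) (hm k)) (half_lt_self hε)
    exact tendsto_nhds_unique h2 h3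
  refine ⟨(U.lim : Measure (Box D)), hμ, hmom, fun g ε hε => ?_⟩
  set μ : Measure (Box D) := (U.lim : Measure (Box D)) with hμdef
  -- the polynomials
  set W : Submodule ℂ C(Box D, ℂ) :=
    { carrier := {p | ∀ ε : ℝ, 0 < ε → ∃ N₀ : ℕ, ∀ N ≥ N₀, ∀ m, P N m →
        ‖∫ z, p z ∂m - ∫ z, p z ∂μ‖ ≤ ε}
      add_mem' := by
        intro a b ha hb ε hε
        obtain ⟨N₁, h1⟩ := ha (ε / 2) (half_pos hε)
        obtain ⟨N₂, h2⟩ := hb (ε / 2) (half_pos hε)
        refine ⟨max N₁ N₂, fun N hN m hm => ?_⟩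
        have hpm := hprob N m hm
        have e : ∀ m' : Measure (Box D), IsProbabilityMeasure m' →
            ∫ z, (a + b) z ∂m' = ∫ z, a z ∂m' + ∫ z, b z ∂m' := by
          intro m' hm'
          exact integral_add (cont_int D m' a) (cont_int D m' b)
        rw [e m hpm, e μ hμ]
        have h3 := h1 N (le_trans (le_max_left _ _) hN) m hm
        have h4 := h2 N (le_trans (le_max_right _ _) hN) m hm
        have h5 : ∫ z, a z ∂m + ∫ z, b z ∂m - (∫ z, a z ∂μ + ∫ z, b z ∂μ) =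
            (∫ z, a z ∂m - ∫ z, a z ∂μ) + (∫ z, b z ∂m - ∫ z, b z ∂μ) := by ring
        rw [h5]
        refine (norm_add_le _ _).trans ?_
        linarith
      zero_mem' := by
        intro ε hε
        exact ⟨0, fun N _ m _ => by simpa using hε.le⟩
      smul_mem' := by
        intro r a ha ε hε
        obtain ⟨N₁, h1⟩ := ha (ε / (‖r‖ + 1)) (by positivity)
        refine ⟨N₁, fun N hN m hm => ?_⟩
        have e : ∀ m' : Measure (Box D),
            ∫ z, (r • a) z ∂m' = r * ∫ z, a z ∂m' := by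
          intro m'
          rw [← integral_const_mul]
          rfl
        rw [e, e, ← mul_sub, norm_mul]
        have h3 := h1 N hN m hm
        calc ‖r‖ * ‖∫ z, a z ∂m - ∫ z, a z ∂μ‖ ≤ ‖r‖ * (ε / (‖r‖ + 1)) :=
              mul_le_mul_of_nonneg_left h3 (norm_nonneg _)
          _ ≤ ε := by
              rw [mul_div_assoc', div_le_iff₀ (by positivity)]
              nlinarith [norm_nonneg r] } with hW
  have hspan : Submodule.span ℂ (Set.range (monC D)) ≤ W := by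
    rw [Submodule.span_le]
    rintro _ ⟨⟨L, L'⟩, rfl⟩ ε hε
    obtain ⟨N₀, hN₀⟩ := hconv L L' ε hε
    refine ⟨N₀, fun N hN m hm => ?_⟩
    have h1 := hN₀ N hN m hm
    rw [← hmom L L'] at h1
    exact h1
  set g' : C(Box D, ℂ) := ⟨fun z => ((g z : ℝ) : ℂ), Complex.continuous_ofReal.comp g.continuous⟩
    with hg'
  have hε3 : 0 < ε / 3 := by positivity
  obtain ⟨p, hp, hgp⟩ := poly_dense D g' hε3
  obtain ⟨N₀, hN₀⟩ := hspan hp (ε / 3) hε3
  refine ⟨N₀, fun N hN m hm => ?_⟩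
  have hpm := hprob N m hm
  have h1 := hN₀ N hN m hm
  have e : ∀ m' : Measure (Box D), IsProbabilityMeasure m' →
      ‖∫ z, g' z ∂m' - ∫ z, p z ∂m'‖ ≤ ε / 3 := by
    intro m' hm'
    rw [← integral_sub (cont_int D m' g') (cont_int D m' p)]
    exact (int_bd D m' (g' - p)).trans hgp.le
  have e2 : ∀ m' : Measure (Box D), ∫ z, g' z ∂m' = ((∫ z, g z ∂m' : ℝ) : ℂ) := by
    intro m'
    exact integral_ofReal
  have h2 := e m hpm
  have h3 := e μ hμ
  rw [e2] at h2 h3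
  have h4 : ((∫ z, g z ∂m - ∫ z, g z ∂μ : ℝ) : ℂ) =
      (((∫ z, g z ∂m : ℝ) : ℂ) - ∫ z, p z ∂m) + (∫ z, p z ∂m - ∫ z, p z ∂μ) -
        (((∫ z, g z ∂μ : ℝ) : ℂ) - ∫ z, p z ∂μ) := by
    push_cast
    ring
  rw [← Real.norm_eq_abs, ← Complex.norm_real, h4]
  refine (norm_sub_le _ _).trans ?_
  have h5 := norm_add_le (((∫ z, g z ∂m : ℝ) : ℂ) - ∫ z, p z ∂m) (∫ z, p z ∂m - ∫ z, p z ∂μ)
  linarith

end Pool.Agent.Helper61.XP
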