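import Pool.Graph.R_pool_sql_team_seeded_64922ed1.X298.RP.Main
import Pool.Agent.Helper61.XP.Defs

/-!
# Singular parameters
-/

set_option autoImplicit false

open scoped Topology
open Filter

noncomputable section

namespace Pool.Agent.Helper61.XP

open Pool.Agent.X298.RP

theorem root_bd {N : ℕ} {a : Fin N → ℂ} {β : Fin N → ℂ}
    (h : ∀ x : ℂ, ∏ j, (x - β j) = x ^ N + ∑ k, a k * x ^ (k : ℕ)) (j : Fin N) :
    ‖β j‖ ≤ 1 + ∑ k, ‖a k‖ := by
  have h0 : 0 ≤ ∑ k, ‖a k‖ := Finset.sum_nonneg fun k _ => norm_nonneg _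
  by_cases hb : ‖β j‖ ≤ 1
  · linarith
  have hb' : 1 < ‖β j‖ := not_le.1 hb
  have h1 := h (β j)
  rw [Finset.prod_eq_zero (Finset.mem_univ j) (sub_self _)] at h1
  have h2 : ‖β j‖ ^ N ≤ (∑ k, ‖a k‖) * ‖β j‖ ^ (N - 1) := by
    have h3 : β j ^ N = -∑ k, a k * β j ^ (k : ℕ) := by linear_combination -h1
    rw [← norm_pow, h3, norm_neg, Finset.sum_mul]
    refine (norm_sum_le _ _).trans (Finset.sum_le_sum fun k _ => ?_)
    rw [norm_mul, norm_pow]
    refine mul_le_mul_of_nonneg_left (pow_le_pow_right₀ hb'.le ?_) (norm_nonneg _)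
    have := k.2
    omega
  have hN : ‖β j‖ ^ N = ‖β j‖ * ‖β j‖ ^ (N - 1) := by
    rw [← pow_succ']
    congr 1
    have := j.2
    omega
  have h4 : ‖β j‖ ≤ ∑ k, ‖a k‖ := by
    rw [hN] at h2
    exact le_of_mul_le_mul_right h2 (by positivity)
  linarith

theorem sing_closed {J : Type} [Fintype J] {N m : ℕ} {E : Fin N → (J → ℂ) → ℂ}
    (hE : ∀ k, Continuous (E k)) : IsClosed (Sing N m E) := by
  classical
  have h1 : Sing N m E = ⋃ p : Fin N → Fin m, {z : J → ℂ | ∃ β : Fin N → ℂ,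
      (∀ x : ℂ, ∏ j, (x - β j) = x ^ N + ∑ k, E k z * x ^ (k : ℕ)) ∧
      ∀ j k, p j = p k → β j * ‖β k‖ = β k * ‖β j‖} := by
    ext z
    simp only [Set.mem_iUnion]
    constructor
    · rintro ⟨β, h1, p, h2⟩
      exact ⟨p, β, h1, h2⟩
    · rintro ⟨p, β, h1, h2⟩
      exact ⟨β, h1, p, h2⟩
  rw [h1]
  refine isClosed_iUnion_of_finite fun p => ?_
  refine IsSeqClosed.isClosed ?_
  intro zs z hzs hz
  choose β hβ1 hβ2 using hzs
  -- bounded
  have hbd : ∃ R : ℝ, ∀ n, ∑ k, ‖E k (zs n)‖ ≤ R := by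
    have hc : Continuous fun z : J → ℂ => ∑ k, ‖E k z‖ :=
      continuous_finsetSum _ fun k _ => (hE k).norm
    have h2 : Tendsto (fun n => ∑ k, ‖E k (zs n)‖) atTop (𝓝 (∑ k, ‖E k z‖)) :=
      (hc.tendsto z).comp hz
    obtain ⟨R, hR⟩ := h2.bddAbove_range
    exact ⟨R, fun n => hR ⟨n, rfl⟩⟩
  obtain ⟨R, hR⟩ := hbd
  have hball : ∀ n, β n ∈ Metric.closedBall (0 : Fin N → ℂ) (1 + |R|) := by
    intro n
    rw [mem_closedBall_zero_iff, pi_norm_le_iff_of_nonneg (by positivity)]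
    intro j
    have h2 := root_bd (hβ1 n) j
    have h3 := hR n
    have h4 := le_abs_self R
    linarith
  obtain ⟨b, _, ψ, hψ, hb⟩ := (isCompact_closedBall (0 : Fin N → ℂ) (1 + |R|)).tendsto_subseq hball
  have hz' : Tendsto (fun n => zs (ψ n)) atTop (𝓝 z) := hz.comp hψ.tendsto_atTop
  have hbj : ∀ j, Tendsto (fun n => β (ψ n) j) atTop (𝓝 (b j)) := fun j =>
    ((continuous_apply j).tendsto b).comp hb
  refine ⟨b, fun x => ?_, fun j k hjk => ?_⟩
  · have e1 : Tendsto (fun n => ∏ j, (x - β (ψ n) j)) atTop (𝓝 (∏ j, (x - b j))) :=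
      tendsto_finsetProd _ fun j _ => tendsto_const_nhds.sub (hbj j)
    have e2 : Tendsto (fun n => x ^ N + ∑ k, E k (zs (ψ n)) * x ^ (k : ℕ)) atTop
        (𝓝 (x ^ N + ∑ k, E k z * x ^ (k : ℕ))) :=
      tendsto_const_nhds.add (tendsto_finsetSum _ fun k _ =>
        (((hE k).tendsto z).comp hz').mul tendsto_const_nhds)
    refine tendsto_nhds_unique e1 (e2.congr fun n => ?_)
    exact (hβ1 (ψ n) x).symm
  · have hn : ∀ j, Tendsto (fun n => ((‖β (ψ n) j‖ : ℝ) : ℂ)) atTop (𝓝 ((‖b j‖ : ℝ) : ℂ)) :=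
      fun j => (Complex.continuous_ofReal.tendsto _).comp (hbj j).norm
    have e1 := (hbj j).mul (hn k)
    have e2 := (hbj k).mul (hn j)
    refine tendsto_nhds_unique e1 (e2.congr fun n => ?_)
    exact (hβ2 (ψ n) j k hjk).symm

/-- outside of the singular set the Ramanujan conjecture holds at all places -/
theorem cert {J V : Type} {N b m : ℕ} {E : Fin N → (J → ℂ) → ℂ} {z : J → ℂ}
    (hz : z ∉ Sing N m E) (hb : 2 * N ≤ b + 2 * m) (P : Parameters V N) (v : V)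
    (hbad : P.bad v = 0 ∨ b ≤ P.bad v)
    (hP : ∀ x : ℂ, ∏ j, (x - P.α v j) = x ^ N + ∑ k, E k z * x ^ (k : ℕ)) :
    ∀ v' j, ‖P.α v' j‖ = 1 := by
  classical
  refine (main P).2.2.2.2 b v v hbad ?_
  by_contra hcon
  have hd : P.distinct v ≤ m := by omega
  apply hz
  refine ⟨P.α v, hP, ?_⟩
  unfold Parameters.distinct at hd
  set T : Finset ℂ := Finset.univ.image fun j => unit (P.α v j) with hT
  have hT' : T.card ≤ Fintype.card (Fin m) := by
    rw [Fintype.card_fin]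
    convert hd
  obtain ⟨f⟩ : Nonempty (T ↪ Fin m) := by
    rw [← Fintype.card_coe] at hT'
    exact Function.Embedding.nonempty_of_card_le hT'
  refine ⟨fun j => f ⟨unit (P.α v j), Finset.mem_image_of_mem _ (Finset.mem_univ j)⟩,
    fun j k hjk => ?_⟩
  have h1 : unit (P.α v j) = unit (P.α v k) := by
    have := f.injective hjk
    exact congrArg Subtype.val this
  have h2 : (‖P.α v j‖ : ℂ) ≠ 0 := by exact_mod_cast norm_ne_zero_iff.2 (α_ne P v j)
  have h3 : (‖P.α v k‖ : ℂ) ≠ 0 := by exact_mod_cast norm_ne_zero_iff.2 (α_ne P v k)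
  unfold unit at h1
  rw [div_eq_div_iff h2 h3] at h1
  exact h1

end Pool.Agent.Helper61.XP
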