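import Pool.Agent.Helper61.XP.Asy
import Pool.Agent.Helper61.XP.Lim
import Pool.Agent.Helper61.XP.Par
import Pool.Agent.Helper61.XE.Main

/-!
# The density theorem
-/

set_option autoImplicit false

open scoped ENNReal ComplexConjugate Topology
open MeasureTheory Filter

noncomputable section

namespace Pool.Agent.Helper61.XP

open Pool.Agent.Helper78.DF Pool.Agent.Helper61.XE Pool.Agent.X298.RP

section norm
variable {G : Type} [Group G] {K : Subgroup G} {J : Type} {φ : J → G → ℝ} {e : G → ℂ}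

/-- the norm bounds the powers -/
theorem pow_norm {φ : G → ℝ} (hφ : IsHecke K φ) (h : G ⧸ K → ℂ)
    (hf : (Function.support h).Finite) (L : List Unit) :
    (Function.support (heckes K (fun _ => φ) L h)).Finite ∧
    ∑' y, ‖heckes K (fun _ => φ) L h y‖ ^ 2 ≤ hnorm K φ ^ (2 * L.length) * ∑' y, ‖h y‖ ^ 2 := by
  induction L with
  | nil => exact ⟨hf, by simp [heckes]⟩
  | cons j L ih =>
    obtain ⟨h1, h2⟩ := ih
    refine ⟨op_fin (isKer_hker hφ) (hker_col hφ) h1, ?_⟩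
    have h3 := (normBd_hnorm hφ).2 (heckes K (fun _ => φ) L h) h1
    calc _ ≤ hnorm K φ ^ 2 * ∑' y, ‖heckes K (fun _ => φ) L h y‖ ^ 2 := h3
      _ ≤ hnorm K φ ^ 2 * (hnorm K φ ^ (2 * L.length) * ∑' y, ‖h y‖ ^ 2) :=
        mul_le_mul_of_nonneg_left h2 (by positivity)
      _ = _ := by
        rw [List.length_cons]
        ring

theorem heckes_rep (j : J) (m : ℕ) (h : G ⧸ K → ℂ) :
    heckes K φ (List.replicate m j) h = heckes K (fun _ : Unit => φ j) (List.replicate m ()) h := by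
  induction m with
  | zero => rfl
  | succ m ih =>
    show hecke K (φ j) (heckes K φ (List.replicate m j) h) =
      hecke K (φ j) (heckes K (fun _ : Unit => φ j) (List.replicate m ()) h)
    rw [ih]

theorem mom_rep (hφ : ∀ j, IsHecke K (φ j)) (he : IsTyp K e) (j : J) (m : ℕ) (x : G ⧸ K) :
    ∃ s : ℝ, mom K φ e (List.replicate m j) (List.replicate m j) x = (s : ℂ) ∧
      s ≤ hnorm K (φ j) ^ (2 * m) * esq K e := by
  obtain ⟨h1, h2⟩ := pow_norm (hφ j) (fx K e x) (fx_supp he x) (List.replicate m ())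
  rw [List.length_replicate, ← heckes_rep] at h2
  rw [← heckes_rep] at h1
  refine ⟨∑ᶠ y, ‖heckes K φ (List.replicate m j) (fx K e x) y‖ ^ 2, ?_, ?_⟩
  · have e2 := Complex.ofRealHom.toAddMonoidHom.map_finsum_of_injective
      (RingHom.injective Complex.ofRealHom)
      (fun y : G ⧸ K => ‖heckes K φ (List.replicate m j) (fx K e x) y‖ ^ 2)
    have e3 : ((∑ᶠ y : G ⧸ K, ‖heckes K φ (List.replicate m j) (fx K e x) y‖ ^ 2 : ℝ) : ℂ) =
      ∑ᶠ y : G ⧸ K, ((‖heckes K φ (List.replicate m j) (fx K e x) y‖ ^ 2 : ℝ) : ℂ) := e2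
    rw [e3]
    unfold mom
    refine finsum_congr fun y => ?_
    rw [Complex.mul_conj']
    push_cast
    rfl
  · have h3 : ∀ g : G ⧸ K → ℂ, (Function.support g).Finite →
        ∑' y, ‖g y‖ ^ 2 = ∑ᶠ y, ‖g y‖ ^ 2 := by
      intro g hg
      refine tsum_eq_finsum (hg.subset ?_)
      intro y hy
      rw [Function.mem_support] at hy
      intro h0
      apply hy
      rw [h0]
      simp
    rw [h3 _ h1, h3 _ (fx_supp he x), fx_sq he] at h2
    exact h2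

theorem fx_one (he : IsTyp K e) :
    fx K e (QuotientGroup.mk 1) = fun y : G ⧸ K => conj (e y.out) := by
  funext y
  unfold fx
  obtain ⟨κ, hκ⟩ := QuotientGroup.mk_out_eq_mul K (1 : G)
  rw [hκ, one_mul, he.left _ (K.inv_mem κ.2)]

end norm

variable {G : Type} [Group G] {K : Subgroup G} {J : Type} [Fintype J] {φ : J → G → ℝ} {e : G → ℂ}
  {A : Type} [CommRing A] {ι : Type} [Fintype ι] {k : ι → Type}
  [∀ v, NormedField (k v)] [∀ v, IsUltrametricDist (k v)] {emb : ∀ v, A →+* k v}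
  {n : ℕ} {ρ : G →* GLS n k}

theorem main2 (hA : IsSInt emb) (hρ : Function.Injective ρ)
    (hK : ∀ κ ∈ K, Bdd (ρ κ) fun _ => 1) (hφ : ∀ j, IsHecke K (φ j)) (he : IsTyp K e)
    (hvol : Summable fun o : Orb (prin ρ emb (⊤ : Ideal A)) (G ⧸ K) =>
      1 / (sc (prin ρ emb (⊤ : Ideal A)) (Quotient.out o) : ℝ)) {w : G ⧸ K → ℝ}
    (hw0 : ∀ x, 0 ≤ w x) (hwi : ∀ γ ∈ prin ρ emb (⊤ : Ideal A), ∀ x, w (γ • x) = w x)
    (hws : Summable fun o : Orb (prin ρ emb (⊤ : Ideal A)) (G ⧸ K) =>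
      w (Quotient.out o) / (sc (prin ρ emb (⊤ : Ideal A)) (Quotient.out o) : ℝ))
    (hex : ∀ N : ℕ, ∃ (𝔫 : Ideal A) (I : Type) (_ : Fintype I) (F : I → G ⧸ K → ℂ)
      (lam : I → J → ℂ), N ≤ Nat.card (A ⧸ 𝔫) ∧ IsFam ρ emb K φ e w 𝔫 F lam) :
    ∃ μ : Measure (J → ℂ), IsProbabilityMeasure μ ∧
      (∀ᵐ z ∂μ, ∀ j, ‖z j‖ ≤ hnorm K (φ j)) ∧
      (∀ L L' : List J, (∫ z, (L.map z).prod * conj (L'.map z).prod ∂μ) * (esq K e : ℂ) =
        ∑ᶠ y : G ⧸ K, heckes K φ L (fun y => conj (e y.out)) y *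
          conj (heckes K φ L' (fun y => conj (e y.out)) y)) ∧
      (∀ ε : ℝ, 0 < ε → ∃ N : ℕ, ∀ (𝔫 : Ideal A) (I : Type) [Fintype I] (F : I → G ⧸ K → ℂ)
        (lam : I → J → ℂ), IsFam ρ emb K φ e w 𝔫 F lam → N ≤ Nat.card (A ⧸ 𝔫) →
        |(Fintype.card I : ℝ) / (prin ρ emb 𝔫).relIndex (prin ρ emb ⊤) -
          esq K e * vol K (prin ρ emb (⊤ : Ideal A))| ≤ ε) ∧
      (∀ t : (J → ℂ) → ℝ, Continuous t → ∀ ε : ℝ, 0 < ε → ∃ N : ℕ,
        ∀ (𝔫 : Ideal A) (I : Type) [Fintype I] (F : I → G ⧸ K → ℂ) (lam : I → J → ℂ),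
        IsFam ρ emb K φ e w 𝔫 F lam → N ≤ Nat.card (A ⧸ 𝔫) →
        |(∑ i, t (lam i)) / Fintype.card I - ∫ z, t z ∂μ| ≤ ε) ∧
      ∀ (N b m : ℕ) (E : Fin N → (J → ℂ) → ℂ), (∀ k, Continuous (E k)) →
        2 * N ≤ b + 2 * m → ∀ ε : ℝ, 0 < ε → ∃ N₀ : ℕ,
        ∀ (𝔫 : Ideal A) (I : Type) [Fintype I] (F : I → G ⧸ K → ℂ) (lam : I → J → ℂ),
        IsFam ρ emb K φ e w 𝔫 F lam → N₀ ≤ Nat.card (A ⧸ 𝔫) →
        ∀ (V : I → Type) (P : ∀ i, Parameters (V i) N) (v : ∀ i, V i),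
        (∀ i, (P i).bad (v i) = 0 ∨ b ≤ (P i).bad (v i)) →
        (∀ i x, ∏ j, (x - (P i).α (v i) j) = x ^ N + ∑ k, E k (lam i) * x ^ (k : ℕ)) →
        ({i | ∃ v' j, ‖(P i).α v' j‖ ≠ 1}.ncard : ℝ) ≤
          (μ.real (Sing N m E) + ε) * Fintype.card I := by
  classical
  set x₀ : G ⧸ K := QuotientGroup.mk 1 with hx₀
  have hesq : 0 < esq K e := esq_pos he
  have hvolpos : 0 < vol K (prin ρ emb (⊤ : Ideal A)) := by
    unfold vol
    have h0 : ∀ o : Orb (prin ρ emb (⊤ : Ideal A)) (G ⧸ K),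
        0 < 1 / (sc (prin ρ emb (⊤ : Ideal A)) (Quotient.out o) : ℝ) := by
      intro o
      have := XE.sc_pos _ (stab_level (emb := emb) hA hρ hK (le_refl (prin ρ emb (⊤ : Ideal A))))
        (Quotient.out o)
      positivity
    exact hvol.tsum_pos (fun o => (h0 o).le)
      (Quotient.mk (MulAction.orbitRel (prin ρ emb (⊤ : Ideal A)) (G ⧸ K)) x₀) (h0 _)
  set M : ℝ := esq K e * vol K (prin ρ emb (⊤ : Ideal A)) with hM
  have hMpos : 0 < M := mul_pos hesq hvolpos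
  -- the number of forms
  have hcard : ∀ ε : ℝ, 0 < ε → ∃ N : ℕ, ∀ (𝔫 : Ideal A) (I : Type) [Fintype I]
      (F : I → G ⧸ K → ℂ) (lam : I → J → ℂ), IsFam ρ emb K φ e w 𝔫 F lam →
      N ≤ Nat.card (A ⧸ 𝔫) →
      0 < ((prin ρ emb 𝔫).relIndex (prin ρ emb ⊤) : ℝ) ∧
      |(Fintype.card I : ℝ) - M * (prin ρ emb 𝔫).relIndex (prin ρ emb ⊤)| ≤
        ε * (prin ρ emb 𝔫).relIndex (prin ρ emb ⊤) := by
    intro ε hε
    obtain ⟨N, hN⟩ := asy hA hρ hK hφ he hvol hw0 hwi hws [] [] x₀ hε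
    refine ⟨N, fun 𝔫 I _ F lam hs hle => ?_⟩
    obtain ⟨h1, h2⟩ := hN 𝔫 I F lam hs hle
    refine ⟨by exact_mod_cast h1, ?_⟩
    rw [mom_nil he] at h2
    simp only [List.map_nil, List.prod_nil, map_one, mul_one, Finset.sum_const, nsmul_eq_mul] at h2
    rw [← Real.norm_eq_abs, ← Complex.norm_real]
    refine le_trans (le_of_eq ?_) h2
    congr 1
    rw [hM]
    push_cast
    rfl
  obtain ⟨N₁, hN₁⟩ := hcard (M / 2) (half_pos hMpos)
  have hcard2 : ∀ (𝔫 : Ideal A) (I : Type) [Fintype I] (F : I → G ⧸ K → ℂ) (lam : I → J → ℂ),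
      IsFam ρ emb K φ e w 𝔫 F lam → N₁ ≤ Nat.card (A ⧸ 𝔫) →
      0 < ((prin ρ emb 𝔫).relIndex (prin ρ emb ⊤) : ℝ) ∧
      M / 2 * (prin ρ emb 𝔫).relIndex (prin ρ emb ⊤) ≤ Fintype.card I ∧
      (Fintype.card I : ℝ) ≤ 2 * M * (prin ρ emb 𝔫).relIndex (prin ρ emb ⊤) ∧
      (0 : ℝ) < Fintype.card I := by
    intro 𝔫 I _ F lam hs hle
    obtain ⟨h1, h2⟩ := hN₁ 𝔫 I F lam hs hle
    rw [abs_le] at h2
    have h3 : 0 < M / 2 * ((prin ρ emb 𝔫).relIndex (prin ρ emb ⊤) : ℝ) := by positivity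
    refine ⟨h1, ?_, ?_, ?_⟩ <;> nlinarith [h2.1, h2.2]
  obtain ⟨D, hD0, hD⟩ := fam_bd (A := A) (emb := emb) hA hρ hK hφ
  -- the measures
  set P : ℕ → Measure (Box D) → Prop := fun N m =>
    ∃ (𝔫 : Ideal A) (I : Type) (_ : Fintype I) (F : I → G ⧸ K → ℂ) (lam : I → J → ℂ)
      (hs : IsFam ρ emb K φ e w 𝔫 F lam), (0 : ℝ) < Fintype.card I ∧ N = Nat.card (A ⧸ 𝔫) ∧
      m = wm (fun _ : I => 1 / (Fintype.card I : ℝ))
        (fun i => (⟨lam i, fun j => hD 𝔫 I F lam hs.onf hs.eig i j⟩ : Box D)) with hP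
  have hprob : ∀ N m, P N m → IsProbabilityMeasure m := by
    rintro N m ⟨𝔫, I, hI, F, lam, hs, h1, rfl, rfl⟩
    refine wm_prob (fun i => by positivity) ?_ _
    rw [Finset.sum_const, nsmul_eq_mul, Finset.card_univ]
    field_simp
  set c : List J → List J → ℂ := fun L L' => mom K φ e L L' x₀ / (esq K e : ℂ) with hc
  have hesqC : (esq K e : ℂ) ≠ 0 := by exact_mod_cast hesq.ne'
  have hconv : ∀ L L' : List J, ∀ ε : ℝ, 0 < ε → ∃ N₀ : ℕ, ∀ N ≥ N₀, ∀ m, P N m →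
      ‖∫ z, mon L L' z.1 ∂m - c L L'‖ ≤ ε := by
    intro L L' ε hε
    set Q : ℝ := ‖mom K φ e L L' x₀‖ / esq K e + 1 with hQ
    have hQpos : 0 < Q := by positivity
    set ε₁ : ℝ := ε * (M / 2) / Q with hε₁
    have hε₁pos : 0 < ε₁ := by positivity
    obtain ⟨N₂, hN₂⟩ := asy hA hρ hK hφ he hvol hw0 hwi hws L L' x₀ hε₁pos
    obtain ⟨N₃, hN₃⟩ := hcard ε₁ hε₁pos
    refine ⟨max N₁ (max N₂ N₃), ?_⟩
    rintro N hN m ⟨𝔫, I, hI, F, lam, hs, h1, rfl, rfl⟩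
    obtain ⟨h2, h3, _, _⟩ := hcard2 𝔫 I F lam hs (le_trans (le_max_left _ _) hN)
    obtain ⟨_, h4⟩ := hN₂ 𝔫 I F lam hs
      (le_trans (le_trans (le_max_left _ _) (le_max_right _ _)) hN)
    obtain ⟨_, h5⟩ := hN₃ 𝔫 I F lam hs
      (le_trans (le_trans (le_max_right _ _) (le_max_right _ _)) hN)
    rw [wm_int (fun i => by positivity) _ (fun z : Box D => mon L L' z.1)]
    set T : ℂ := ∑ i, (L.map (lam i)).prod * conj (L'.map (lam i)).prod with hT
    set R : ℝ := ((prin ρ emb 𝔫).relIndex (prin ρ emb ⊤) : ℝ) with hR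
    set C : ℝ := (Fintype.card I : ℝ) with hC
    have e1 : ∑ i, (1 / C) • mon L L' (lam i) = T / (C : ℂ) := by
      rw [hT, Finset.sum_div]
      refine Finset.sum_congr rfl fun i _ => ?_
      rw [Complex.real_smul]
      unfold mon
      push_cast
      ring
    have e2 : ∑ i, (1 / C) • mon L L' (⟨lam i, fun j => hD 𝔫 I F lam hs.onf hs.eig i j⟩ :
        Box D).1 = T / (C : ℂ) := e1
    rw [e2]
    have hCC : (C : ℂ) ≠ 0 := by exact_mod_cast h1.ne'
    have e3 : T / (C : ℂ) - c L L' = ((T - mom K φ e L L' x₀ *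
        (vol K (prin ρ emb (⊤ : Ideal A)) : ℂ) * (R : ℂ)) -
        mom K φ e L L' x₀ / (esq K e : ℂ) * ((C - M * R : ℝ) : ℂ)) / (C : ℂ) := by
      rw [hc, hM]
      push_cast
      field_simp
      ring
    rw [e3, norm_div, Complex.norm_real, Real.norm_of_nonneg h1.le, div_le_iff₀ h1]
    refine (norm_sub_le _ _).trans ?_
    rw [norm_mul, norm_div, Complex.norm_real, Complex.norm_real, Real.norm_of_nonneg hesq.le,
      Real.norm_eq_abs]
    have h6 : ‖T - mom K φ e L L' x₀ * (vol K (prin ρ emb (⊤ : Ideal A)) : ℂ) * (R : ℂ)‖ ≤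
        ε₁ * R := by
      refine le_trans (le_of_eq ?_) h4
      congr 2
    calc _ ≤ ε₁ * R + ‖mom K φ e L L' x₀‖ / esq K e * (ε₁ * R) :=
          add_le_add h6 (mul_le_mul_of_nonneg_left h5 (by positivity))
      _ = Q * ε₁ * R := by rw [hQ]; ring
      _ = ε * (M / 2 * R) := by
          rw [hε₁]
          field_simp
      _ ≤ ε * C := mul_le_mul_of_nonneg_left h3 hε.le
  have hinf : ∀ N : ℕ, ∃ N' ≥ N, ∃ m, P N' m := by
    intro N
    obtain ⟨𝔫, I, hI, F, lam, hle, hs⟩ := hex (max N N₁)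
    obtain ⟨_, _, _, h1⟩ := hcard2 𝔫 I F lam hs ((le_max_right _ _).trans hle)
    exact ⟨Nat.card (A ⧸ 𝔫), (le_max_left _ _).trans hle, _, 𝔫, I, hI, F, lam, hs, h1, rfl, rfl⟩
  obtain ⟨μ', hμ', hmomμ, hequi⟩ := limit2 D hprob hconv hinf
  have hmeas : AEMeasurable (Subtype.val : Box D → (J → ℂ)) μ' :=
    measurable_subtype_coe.aemeasurable
  have hmapC : ∀ L L' : List J, ∫ z, mon L L' z ∂(μ'.map Subtype.val) = ∫ z, mon L L' z.1 ∂μ' :=
    fun L L' => integral_map hmeas (mon_cont L L').aestronglyMeasurable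
  have hμp : IsProbabilityMeasure (μ'.map Subtype.val) := Measure.isProbabilityMeasure_map hmeas
  -- equidistribution
  have hE : ∀ t : (J → ℂ) → ℝ, Continuous t → ∀ ε : ℝ, 0 < ε → ∃ N : ℕ,
      ∀ (𝔫 : Ideal A) (I : Type) [Fintype I] (F : I → G ⧸ K → ℂ) (lam : I → J → ℂ),
      IsFam ρ emb K φ e w 𝔫 F lam → N ≤ Nat.card (A ⧸ 𝔫) →
      |(∑ i, t (lam i)) / Fintype.card I - ∫ z, t z ∂(μ'.map Subtype.val)| ≤ ε := by
    intro t ht ε hε
    obtain ⟨N₀, hN₀⟩ := hequi ⟨fun z => t z.1, ht.comp continuous_subtype_val⟩ ε hε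
    refine ⟨max N₀ N₁, fun 𝔫 I _ F lam hs hN => ?_⟩
    obtain ⟨_, _, _, h1⟩ := hcard2 𝔫 I F lam hs ((le_max_right _ _).trans hN)
    have h4 := hN₀ _ ((le_max_left _ _).trans hN) _ ⟨𝔫, I, inferInstance, F, lam, hs, h1, rfl, rfl⟩
    rw [integral_map hmeas ht.aestronglyMeasurable]
    refine le_trans (le_of_eq ?_) h4
    congr 2
    rw [wm_int (fun i => by positivity) _
      (fun z : Box D => (⟨fun z => t z.1, ht.comp continuous_subtype_val⟩ : C(Box D, ℝ)) z),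
      Finset.sum_div]
    refine Finset.sum_congr rfl fun i _ => ?_
    show t (lam i) / _ = _ * t (lam i)
    ring
  refine ⟨μ'.map Subtype.val, hμp, ?_, ?_, ?_, hE, ?_⟩
  · -- the support
    rw [ae_map_iff hmeas]
    · rw [ae_all_iff]
      intro j
      refine supp_one j (normBd_hnorm (hφ j)).1 fun m => ?_
      have h4 : ∫ z : Box D, mon (List.replicate m j) (List.replicate m j) z.1 ∂μ' =
          ((∫ z : Box D, ‖z.1 j‖ ^ (2 * m) ∂μ' : ℝ) : ℂ) := by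
        refine Eq.trans ?_ (integral_ofReal (μ := μ') (𝕜 := ℂ)
          (f := fun z : Box D => ‖z.1 j‖ ^ (2 * m)))
        refine integral_congr_ae (Filter.Eventually.of_forall fun z => ?_)
        exact mon_rep m j z.1
      rw [hmomμ] at h4
      obtain ⟨s, hs1, hs2⟩ := mom_rep hφ he j m x₀
      have h5 : (s / esq K e : ℝ) = ∫ z : Box D, ‖z.1 j‖ ^ (2 * m) ∂μ' := by
        have h6 : ((s / esq K e : ℝ) : ℂ) = ((∫ z : Box D, ‖z.1 j‖ ^ (2 * m) ∂μ' : ℝ) : ℂ) := by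
          rw [← h4, hc]
          simp only
          rw [hs1]
          push_cast
          rfl
        exact_mod_cast h6
      rw [← h5, div_le_iff₀ hesq]
      exact hs2
    · have e : {z : J → ℂ | ∀ j, ‖z j‖ ≤ hnorm K (φ j)} =
          ⋂ j, {z : J → ℂ | ‖z j‖ ≤ hnorm K (φ j)} := by
        ext z
        simp
      rw [e]
      exact MeasurableSet.iInter fun j =>
        measurableSet_le ((measurable_pi_apply j).norm) measurable_const
  · -- the moments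
    intro L L'
    have h1 := hmapC L L'
    rw [hmomμ] at h1
    have h2 : ∫ z, (L.map z).prod * conj (L'.map z).prod ∂(μ'.map Subtype.val) = c L L' := h1
    rw [h2, hc]
    simp only
    rw [div_mul_cancel₀ _ hesqC, ← fx_one he]
    rfl
  · -- the number of forms
    intro ε hε
    obtain ⟨N, hN⟩ := hcard ε hε
    refine ⟨N, fun 𝔫 I _ F lam hs hle => ?_⟩
    obtain ⟨h1, h2⟩ := hN 𝔫 I F lam hs hle
    have e1 : (Fintype.card I : ℝ) / (prin ρ emb 𝔫).relIndex (prin ρ emb ⊤) - M =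
        ((Fintype.card I : ℝ) - M * (prin ρ emb 𝔫).relIndex (prin ρ emb ⊤)) /
          (prin ρ emb 𝔫).relIndex (prin ρ emb ⊤) := by
      field_simp
    rw [e1, abs_div, abs_of_pos h1, div_le_iff₀ h1]
    exact h2
  · -- the exceptional forms
    intro N b m E hEc hb ε hε
    have hcl : IsClosed (Sing N m E) := sing_closed hEc
    have hε₂pos : 0 < ε / 2 := by positivity
    have hδ : Tendsto (fun n : ℕ => (1 : ℝ) / ((n : ℝ) + 1)) atTop (𝓝 0) :=
      tendsto_one_div_add_atTop_nhds_zero_nat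
    have hδpos : ∀ n : ℕ, (0 : ℝ) < 1 / ((n : ℝ) + 1) := fun n => by positivity
    have hlim := tendsto_integral_thickenedIndicator_of_isClosed (μ'.map Subtype.val) hcl hδpos hδ
    obtain ⟨r, hr⟩ := ((hlim.eventually (gt_mem_nhds
      (lt_add_of_pos_right ((μ'.map (Subtype.val : Box D → (J → ℂ))).real (Sing N m E))
        hε₂pos)))).exists
    set t : (J → ℂ) → ℝ := fun z => (thickenedIndicator (hδpos r) (Sing N m E) z : ℝ) with ht
    have htc : Continuous t := by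
      exact NNReal.continuous_coe.comp (thickenedIndicator (hδpos r) (Sing N m E)).continuous
    obtain ⟨N₂, hN₂⟩ := hE t htc (ε / 2) hε₂pos
    refine ⟨max N₁ N₂, fun 𝔫 I _ F lam hs hle V Pa v hbad hpol => ?_⟩
    obtain ⟨h1, _, h3, h4⟩ := hcard2 𝔫 I F lam hs ((le_max_left _ _).trans hle)
    have h5 := hN₂ 𝔫 I F lam hs ((le_max_right _ _).trans hle)
    have h6 : ∑ i, t (lam i) ≤
        ((μ'.map (Subtype.val : Box D → (J → ℂ))).real (Sing N m E) + ε) * Fintype.card I := by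
      have h7 := (abs_le.1 h5).2
      have h8 : (∑ i, t (lam i)) / Fintype.card I ≤
          (μ'.map (Subtype.val : Box D → (J → ℂ))).real (Sing N m E) + ε := by
        have h9 : ∫ z, t z ∂(μ'.map Subtype.val) <
          (μ'.map (Subtype.val : Box D → (J → ℂ))).real (Sing N m E) + ε / 2 := hr
        linarith
      rwa [div_le_iff₀ h4] at h8
    refine le_trans ?_ h6
    rw [Set.ncard_eq_toFinset_card']
    have h8 : ∀ i ∈ {i | ∃ v' j, ‖(Pa i).α v' j‖ ≠ 1}.toFinset, (1 : ℝ) ≤ t (lam i) := by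
      intro i hi
      rw [Set.mem_toFinset] at hi
      obtain ⟨v', j, hv'⟩ := hi
      have h9 : lam i ∈ Sing N m E := by
        by_contra hcon
        exact hv' (cert hcon hb (Pa i) (v i) (hbad i) (hpol i) v' j)
      have h10 : thickenedIndicator (hδpos r) (Sing N m E) (lam i) = 1 :=
        thickenedIndicator_one_of_mem_closure _ _ (subset_closure h9)
      rw [ht]
      simp only
      rw [h10]
      simp
    calc (({i | ∃ v' j, ‖(Pa i).α v' j‖ ≠ 1}.toFinset.card : ℕ) : ℝ)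
        = ∑ i ∈ {i | ∃ v' j, ‖(Pa i).α v' j‖ ≠ 1}.toFinset, (1 : ℝ) := by
          rw [Finset.sum_const, nsmul_eq_mul, mul_one]
      _ ≤ ∑ i ∈ {i | ∃ v' j, ‖(Pa i).α v' j‖ ≠ 1}.toFinset, t (lam i) :=
          Finset.sum_le_sum h8
      _ ≤ ∑ i, t (lam i) := Finset.sum_le_sum_of_subset_of_nonneg (Finset.subset_univ _)
          fun i _ _ => NNReal.coe_nonneg _

end Pool.Agent.Helper61.XP
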