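import Pool.Agent.Helper61.XP.Pt

/-!
# Masses of invariant sets
-/

set_option autoImplicit false

open scoped ENNReal ComplexConjugate

noncomputable section

namespace Pool.Agent.Helper61.XP

open Pool.Agent.Helper78.DF Pool.Agent.Helper61.XE

variable {G : Type} [Group G] {X : Type} [MulAction G X]

theorem mass_idx {Γ Γ₁ : Subgroup G} (hle : Γ ≤ Γ₁) (hidx : Γ.relIndex Γ₁ ≠ 0)
    (hfin : ∀ x : X, Finite (MulAction.stabilizer Γ x))
    (hfin₁ : ∀ x : X, Finite (MulAction.stabilizer Γ₁ x)) (w : X → ℝ≥0∞)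
    (hw : ∀ γ ∈ Γ₁, ∀ x, w (γ • x) = w x) :
    ∑' x, cut Γ x * w x = (Γ.relIndex Γ₁ : ℝ≥0∞) * ∑' x, cut Γ₁ x * w x := by
  classical
  set S : Subgroup Γ₁ := Γ.subgroupOf Γ₁ with hS
  have hQ : Finite (Γ₁ ⧸ S) := Nat.finite_of_card_ne_zero hidx
  have := Fintype.ofFinite (Γ₁ ⧸ S)
  have hinner : ∀ x : X, ∑' γ : Γ₁, cut Γ (γ⁻¹ • x) = (Γ.relIndex Γ₁ : ℝ≥0∞) := by
    intro x
    have e1 : ∑' γ : Γ₁, cut Γ (γ⁻¹ • x) =
        ∑' p : (Γ₁ ⧸ S) × S, cut Γ ((p.1.out * (p.2 : Γ₁))⁻¹ • x) :=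
      ((Equiv.ofBijective _ (coset_bij S)).tsum_eq (fun γ : Γ₁ => cut Γ (γ⁻¹ • x))).symm
    rw [e1, ENNReal.tsum_prod (f := fun (q : Γ₁ ⧸ S) (s : S) =>
      cut Γ ((q.out * (s : Γ₁))⁻¹ • x))]
    have e2 : ∀ q : Γ₁ ⧸ S, ∑' s : S, cut Γ ((q.out * (s : Γ₁))⁻¹ • x) = 1 := by
      intro q
      rw [← sum_cut Γ hfin ((q.out : Γ₁)⁻¹ • x)]
      rw [← ((Equiv.inv S).trans (Subgroup.subgroupOfEquivOfLe hle).toEquiv).tsum_eq
        (fun γ : Γ => cut Γ (γ • ((q.out : Γ₁)⁻¹ • x)))]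
      refine tsum_congr fun s => ?_
      rw [mul_inv_rev, mul_smul]
      rfl
    rw [tsum_congr e2, ENNReal.tsum_const, ENat.card_eq_coe_natCard]
    simp only [ENat.toENNReal_coe, mul_one]
    rfl
  calc ∑' x, cut Γ x * w x
      = ∑' x, (∑' γ : Γ₁, cut Γ₁ (γ • x)) * (cut Γ x * w x) := by
        refine tsum_congr fun x => ?_
        rw [sum_cut Γ₁ hfin₁, one_mul]
    _ = ∑' x, ∑' γ : Γ₁, cut Γ₁ (γ • x) * (cut Γ x * w x) := by
        refine tsum_congr fun x => ?_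
        rw [ENNReal.tsum_mul_right]
    _ = ∑' γ : Γ₁, ∑' x, cut Γ₁ (γ • x) * (cut Γ x * w x) := ENNReal.tsum_comm
    _ = ∑' γ : Γ₁, ∑' x, cut Γ₁ x * (cut Γ (γ⁻¹ • x) * w x) := by
        refine tsum_congr fun γ => ?_
        rw [← (MulAction.toPerm (γ : Γ₁) : Equiv.Perm X).tsum_eq
          (fun x => cut Γ₁ x * (cut Γ (γ⁻¹ • x) * w x))]
        refine tsum_congr fun x => ?_
        show _ = cut Γ₁ (γ • x) * (cut Γ (γ⁻¹ • γ • x) * w (γ • x))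
        rw [inv_smul_smul]
        congr 2
        exact (hw γ γ.2 x).symm
    _ = ∑' x, ∑' γ : Γ₁, cut Γ₁ x * (cut Γ (γ⁻¹ • x) * w x) := ENNReal.tsum_comm
    _ = ∑' x, (Γ.relIndex Γ₁ : ℝ≥0∞) * (cut Γ₁ x * w x) := by
        refine tsum_congr fun x => ?_
        rw [ENNReal.tsum_mul_left, ENNReal.tsum_mul_right, hinner]
        ring
    _ = _ := ENNReal.tsum_mul_left

/-- the version with real numbers -/
theorem mass_real {Γ Γ₁ : Subgroup G} (hle : Γ ≤ Γ₁) (hidx : Γ.relIndex Γ₁ ≠ 0)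
    (hfin : ∀ x : X, Finite (MulAction.stabilizer Γ x))
    (hfin₁ : ∀ x : X, Finite (MulAction.stabilizer Γ₁ x)) (w : X → ℝ) (hw0 : ∀ x, 0 ≤ w x)
    (hw : ∀ γ ∈ Γ₁, ∀ x, w (γ • x) = w x)
    (hs : Summable fun o : Orb Γ₁ X => w (Quotient.out o) / (sc Γ₁ (Quotient.out o) : ℝ)) :
    (Summable fun o : Orb Γ X => w (Quotient.out o) / (sc Γ (Quotient.out o) : ℝ)) ∧
    ∑' o : Orb Γ X, w (Quotient.out o) / (sc Γ (Quotient.out o) : ℝ) =
      (Γ.relIndex Γ₁ : ℝ) * ∑' o : Orb Γ₁ X, w (Quotient.out o) / (sc Γ₁ (Quotient.out o) : ℝ) := by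
  have h1 := mass_idx hle hidx hfin hfin₁ (fun x => ENNReal.ofReal (w x)) (fun γ hγ x => by
    show ENNReal.ofReal (w (γ • x)) = _
    rw [hw γ hγ])
  rw [tsum_cut, tsum_cut] at h1
  have e : ∀ Γ' : Subgroup G, (∀ x : X, Finite (MulAction.stabilizer Γ' x)) → ∀ o : Orb Γ' X,
      ((sc Γ' (Quotient.out o) : ℕ) : ℝ≥0∞)⁻¹ * ENNReal.ofReal (w (Quotient.out o)) =
      ENNReal.ofReal (w (Quotient.out o) / (sc Γ' (Quotient.out o) : ℝ)) := fun Γ' hf o =>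
    card_inv_enn _ (XE.sc_pos Γ' hf _).ne' _ (hw0 _)
  rw [tsum_congr (e Γ hfin), tsum_congr (e Γ₁ hfin₁)] at h1
  have h2 : ∑' o : Orb Γ₁ X, ENNReal.ofReal (w (Quotient.out o) / (sc Γ₁ (Quotient.out o) : ℝ)) =
      ENNReal.ofReal (∑' o : Orb Γ₁ X, w (Quotient.out o) / (sc Γ₁ (Quotient.out o) : ℝ)) :=
    (ENNReal.ofReal_tsum_of_nonneg (fun o => div_nonneg (hw0 _) (Nat.cast_nonneg _)) hs).symm
  rw [h2] at h1
  have h3 : Summable fun o : Orb Γ X => w (Quotient.out o) / (sc Γ (Quotient.out o) : ℝ) := by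
    have h4 : ∑' o : Orb Γ X, ENNReal.ofReal (w (Quotient.out o) / (sc Γ (Quotient.out o) : ℝ)) ≠ ⊤ := by
      rw [h1]
      exact ENNReal.mul_ne_top (ENNReal.natCast_ne_top _) ENNReal.ofReal_ne_top
    have h5 := ENNReal.summable_toReal h4
    refine h5.congr fun o => ?_
    rw [ENNReal.toReal_ofReal (div_nonneg (hw0 _) (Nat.cast_nonneg _))]
  refine ⟨h3, ?_⟩
  rw [← ENNReal.ofReal_tsum_of_nonneg (fun o => div_nonneg (hw0 _) (Nat.cast_nonneg _)) h3,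
    ← ENNReal.ofReal_natCast, ← ENNReal.ofReal_mul (Nat.cast_nonneg _)] at h1
  refine (ENNReal.ofReal_eq_ofReal_iff (tsum_nonneg fun o => div_nonneg (hw0 _) (Nat.cast_nonneg _))
    (mul_nonneg (Nat.cast_nonneg _) (tsum_nonneg fun o =>
      div_nonneg (hw0 _) (Nat.cast_nonneg _)))).1 h1

/-- The mass of sets which move to infinity tends to zero. -/
theorem mass_zero {Y : Type} {g : Y → ℝ} (hg0 : ∀ y, 0 ≤ g y) (hg : Summable g) {S : Type}
    (sz : S → ℕ) (w : S → Y → ℝ) (hw0 : ∀ s y, 0 ≤ w s y) (hw1 : ∀ s y, w s y ≤ 1)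
    (hw : ∀ y, ∃ N : ℕ, ∀ s, N ≤ sz s → w s y = 0) {ε : ℝ} (hε : 0 < ε) :
    ∃ N : ℕ, ∀ s, N ≤ sz s → ∑' y, w s y * g y ≤ ε := by
  classical
  choose N hN using hw
  have h1 := (Metric.tendsto_nhds.1 hg.hasSum ε hε).exists
  obtain ⟨T, hT⟩ := h1
  refine ⟨T.sup N, fun s hs => ?_⟩
  have hsum : ∀ y, ∀ s, w s y * g y ≤ g y := fun y s =>
    mul_le_of_le_one_left (hg0 y) (hw1 s y)
  have hws : Summable fun y => w s y * g y :=
    Summable.of_nonneg_of_le (fun y => mul_nonneg (hw0 s y) (hg0 y)) (fun y => hsum y s) hg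
  have hTs : Summable fun y => if y ∈ T then g y else 0 := by
    refine summable_of_hasFiniteSupport (T.finite_toSet.subset ?_)
    intro y hy
    rw [Function.mem_support] at hy
    by_contra h0
    exact hy (if_neg h0)
  have e1 : ∑' y, (if y ∈ T then g y else 0) = ∑ y ∈ T, g y := by
    rw [tsum_eq_sum (s := T)]
    · exact Finset.sum_congr rfl fun y hy => if_pos hy
    · intro y hy
      exact if_neg hy
  have h2 : ∑' y, (w s y * g y + if y ∈ T then g y else 0) ≤ ∑' y, g y := by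
    refine (hws.add hTs).tsum_le_tsum (fun y => ?_) hg
    by_cases hy : y ∈ T
    · rw [if_pos hy, hN y s ((Finset.le_sup hy).trans hs)]
      simp
    · rw [if_neg hy, add_zero]
      exact hsum y s
  rw [hws.tsum_add hTs, e1] at h2
  rw [Real.dist_eq] at hT
  have h3 := (abs_lt.1 hT).1
  linarith

end Pool.Agent.Helper61.XP
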