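import Pool.Agent.Helper61.XE.Fin
import Pool.Agent.Helper61.XP.Defs

/-!
# The pointwise formula
-/

set_option autoImplicit false

open scoped ComplexConjugate

noncomputable section

namespace Pool.Agent.Helper61.XP

open Pool.Agent.Helper78.DF Pool.Agent.Helper61.XE

section gen
variable {G : Type} [Group G] {X : Type} [MulAction G X] {Γ : Subgroup G}

/-- the expansion for a complete system -/
theorem sys_exp (hfin : ∀ x : X, Finite (MulAction.stabilizer Γ x))
    {J : Type} {κ : J → X → X → ℝ} (hκ : ∀ j, KerOK Γ (κ j))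
    {I : Type} [Fintype I] {F : I → X → ℂ} (hF : IsONF Γ F) {lam : I → J → ℂ}
    (hlam : ∀ i j, op (κ j) (F i) = fun x => lam i j * F i x)
    {h : X → ℂ} (hhf : (Function.support h).Finite)
    (hcomp : ∀ Φ : X → ℂ, (∀ γ ∈ Γ, ∀ x, Φ (γ • x) = Φ x) → Sq Γ Φ →
      (∀ i, ip Γ Φ (F i) = 0) → ∑ᶠ x, h x * conj (Φ x) = 0)
    (L L' : List J) :
    ∑ i, (L.map (lam i)).prod * conj (L'.map (lam i)).prod *
        ((‖∑ᶠ x, h x * conj (F i x)‖ ^ 2 : ℝ) : ℂ) =
      ip Γ (ops (L.map κ) (tr Γ h)) (ops (L'.map κ) (tr Γ h)) := by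
  classical
  set P : X → ℂ := tr Γ h with hP
  have hPinv : ∀ γ ∈ Γ, ∀ x, P (γ • x) = P x := tr_inv Γ h
  have hPsq : Sq Γ P := Sq.of_fin (tr_orb hfin hhf)
  have hKL : ∀ M : List J, ∀ κ' ∈ M.map κ, KerOK Γ κ' := by
    intro M κ' h
    obtain ⟨j, _, rfl⟩ := List.mem_map.1 h
    exact hκ j
  have hunf : ∀ Φ : X → ℂ, (∀ γ ∈ Γ, ∀ x, Φ (γ • x) = Φ x) →
      ip Γ P Φ = ∑ᶠ x, h x * conj (Φ x) := fun Φ hΦ => unfold_l Γ hfin hΦ hhf
  set a : I → ℂ := fun i => ip Γ P (F i) with ha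
  have ha2 : ∀ i, ∑ᶠ x, h x * conj (F i x) = a i := fun i => (hunf (F i) (hF.inv i)).symm
  -- the expansion of `P`
  set Φ : X → ℂ := fun x => P x + -1 * ∑ i, a i * F i x with hΦ
  have hSsq : Sq Γ fun x => ∑ i, a i * F i x := Sq.sum Finset.univ (fun i _ => hF.sq i) a
  have hSsq' : Sq Γ fun x => -1 * ∑ i, a i * F i x := hSsq.smul (-1)
  have hΦsq : Sq Γ Φ := hPsq.add hSsq'
  have hΦinv : ∀ γ ∈ Γ, ∀ x, Φ (γ • x) = Φ x := by
    intro γ hγ x
    rw [hΦ]
    simp only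
    rw [hPinv γ hγ]
    congr 2
    exact Finset.sum_congr rfl fun i _ => by rw [hF.inv i γ hγ x]
  have hΦF : ∀ j, ip Γ Φ (F j) = 0 := by
    intro j
    rw [hΦ, ip_add_l hPsq hSsq' (hF.sq j), ip_smul_l, ip_sum_l _ (fun i _ => hF.sq i) _ (hF.sq j),
      Finset.sum_eq_single j]
    · rw [hF.one j, ha]
      ring
    · intro i _ hij
      rw [hF.zero i j hij, mul_zero]
    · intro h
      exact absurd (Finset.mem_univ j) h
  have h0 : ip Γ P Φ = 0 := by
    rw [hunf Φ hΦinv]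
    exact hcomp Φ hΦinv hΦsq hΦF
  have h1 : ip Γ Φ Φ = 0 := by
    have e : ip Γ Φ Φ = ip Γ P Φ + -1 * ip Γ (fun x => ∑ i, a i * F i x) Φ := by
      conv_lhs => rw [hΦ]
      rw [ip_add_l hPsq hSsq' hΦsq, ip_smul_l]
    rw [e, ip_sum_l _ (fun i _ => hF.sq i) _ hΦsq, h0, zero_add]
    rw [Finset.sum_eq_zero, mul_zero]
    intro i _
    rw [ip_symm, hΦF i, map_zero, mul_zero]
  have h2 : Φ = 0 := by
    refine nsq_zero hfin hΦsq hΦinv ?_
    rw [nsq_ip] at h1
    exact_mod_cast h1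
  have hPexp : P = fun x => ∑ i, a i * F i x := by
    funext x
    have h3 := congrFun h2 x
    have h4 : P x + -1 * ∑ i, a i * F i x = 0 := h3
    linear_combination h4
  -- operators
  have hopsP : ∀ M : List J, ops (M.map κ) P =
      fun x => ∑ i, (a i * (M.map (lam i)).prod) * F i x := by
    intro M
    rw [hPexp, ops_sum _ _ _ _ (fun κ' h => (hKL M κ' h).ker)]
    funext x
    refine Finset.sum_congr rfl fun i _ => ?_
    rw [ops_eigen κ (F i) (lam i) M (fun j _ => (hκ j).ker) (fun j _ => hlam i j), mul_assoc]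
  rw [hopsP L, hopsP L', ip_sum_l _ (fun i _ => hF.sq i) _
    (Sq.sum Finset.univ (fun i _ => hF.sq i) _)]
  refine Finset.sum_congr rfl fun i _ => ?_
  rw [ip_sum_r _ (fun i _ => hF.sq i) _ (hF.sq i), Finset.sum_eq_single i]
  · rw [hF.one i, ha2 i]
    push_cast
    rw [← Complex.mul_conj', map_mul]
    ring
  · intro j _ hij
    rw [hF.zero i j (Ne.symm hij), mul_zero]
  · intro h
    exact absurd (Finset.mem_univ i) h

/-- thick points -/
theorem ip_thick (hfin : ∀ x : X, Finite (MulAction.stabilizer Γ x)) {h₁ h₂ : X → ℂ}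
    (hh₂ : (Function.support h₂).Finite)
    (sep : ∀ γ ∈ Γ, ∀ x, h₁ (γ • x) ≠ 0 → h₂ x ≠ 0 → γ = 1) :
    ip Γ (tr Γ h₁) (tr Γ h₂) = ∑ᶠ x, h₁ x * conj (h₂ x) := by
  rw [unfold_r Γ hfin (tr_inv Γ h₁) hh₂]
  have e1 : ∀ x, h₂ x * conj (tr Γ h₁ x) = h₂ x * conj (h₁ x) := by
    intro x
    by_cases hx : h₂ x = 0
    · rw [hx, zero_mul, zero_mul]
    · congr 2
      unfold tr
      rw [finsum_eq_single _ (1 : Γ)]
      · rw [one_smul]
      · intro γ hγ
        by_contra hne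
        apply hγ
        exact Subtype.ext (sep γ γ.2 x hne hx)
  rw [finsum_congr e1]
  have e2 := (starRingEnd ℂ).toAddMonoidHom.map_finsum_of_injective
    (RingHom.injective (starRingEnd ℂ)) (fun x => h₂ x * conj (h₁ x))
  have e3 : conj (∑ᶠ x, h₂ x * conj (h₁ x)) = ∑ᶠ x, conj (h₂ x * conj (h₁ x)) := e2
  rw [e3]
  refine finsum_congr fun x => ?_
  rw [map_mul, Complex.conj_conj, mul_comm]

end gen

section typ
variable {G : Type} [Group G] {K : Subgroup G} {e : G → ℂ}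

/-- the function attached to the point `x` -/
def fx (K : Subgroup G) (e : G → ℂ) (x y : G ⧸ K) : ℂ := conj (e (x.out⁻¹ * y.out))

theorem e_inv (he : IsTyp K e) (g : G) (x y : G ⧸ K) :
    e ((g • x).out⁻¹ * (g • y).out) = e (x.out⁻¹ * y.out) := by
  rw [smul_out, smul_out]
  obtain ⟨κ, hκ⟩ := QuotientGroup.mk_out_eq_mul K (g * x.out)
  obtain ⟨κ', hκ'⟩ := QuotientGroup.mk_out_eq_mul K (g * y.out)
  rw [hκ, hκ', mul_inv_rev, mul_assoc, he.left _ (K.inv_mem κ.2), ← mul_assoc, he.right _ κ'.2]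
  congr 1
  group

theorem fx_inv (he : IsTyp K e) (g : G) (x y : G ⧸ K) :
    fx K e (g • x) (g • y) = fx K e x y := by
  unfold fx
  rw [e_inv he]

theorem fx_supp (he : IsTyp K e) (x : G ⧸ K) : (Function.support (fx K e x)).Finite := by
  have hinj : Function.Injective (fun y : G ⧸ K => x.out⁻¹ • y) := MulAction.injective _
  refine Set.Finite.of_finite_image (f := fun y : G ⧸ K => x.out⁻¹ • y)
    (he.fin.subset ?_) hinj.injOn
  rintro _ ⟨y, hy, rfl⟩
  show e (x.out⁻¹ • y).out ≠ 0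
  rw [smul_out]
  obtain ⟨κ, hκ⟩ := QuotientGroup.mk_out_eq_mul K (x.out⁻¹ * y.out)
  rw [hκ, he.right _ κ.2]
  intro h0
  rw [Function.mem_support] at hy
  apply hy
  unfold fx
  rw [h0, map_zero]

theorem fx_conv (Φ : G ⧸ K → ℂ) (x : G ⧸ K) :
    ∑ᶠ y, fx K e x y * conj (Φ y) = conj (conv K e Φ x) := by
  unfold conv
  have e2 := (starRingEnd ℂ).toAddMonoidHom.map_finsum_of_injective
    (RingHom.injective (starRingEnd ℂ)) (fun y : G ⧸ K => e (x.out⁻¹ * y.out) * Φ y)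
  have e3 : conj (∑ᶠ y : G ⧸ K, e (x.out⁻¹ * y.out) * Φ y) =
    ∑ᶠ y : G ⧸ K, conj (e (x.out⁻¹ * y.out) * Φ y) := e2
  rw [e3]
  refine finsum_congr fun y => ?_
  rw [map_mul]
  rfl

/-- translations commute with the operators -/
theorem ops_smul {X : Type} [MulAction G X] (L : List (X → X → ℝ))
    (hL : ∀ κ ∈ L, KerOK (⊤ : Subgroup G) κ)
    (g : G) (F : X → ℂ) (x : X) : ops L F (g • x) = ops L (fun y => F (g • y)) x := by
  induction L generalizing x with
  | nil => rfl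
  | cons κ L ih =>
    have h1 := hL κ List.mem_cons_self
    have hL' : ∀ κ' ∈ L, KerOK (⊤ : Subgroup G) κ' := fun κ' h => hL κ' (List.mem_cons_of_mem _ h)
    show op κ (ops L F) (g • x) = op κ (ops L fun y => F (g • y)) x
    rw [op_smul_inv h1.ker (h1.inv g (Subgroup.mem_top g)), op_eq h1.ker]
    refine Finset.sum_congr rfl fun y _ => ?_
    rw [ih hL']

variable {J : Type} {φ : J → G → ℝ}

/-- the moments -/
def mom (K : Subgroup G) (φ : J → G → ℝ) (e : G → ℂ) (L L' : List J) (x : G ⧸ K) : ℂ :=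
  ∑ᶠ y, heckes K φ L (fx K e x) y * conj (heckes K φ L' (fx K e x) y)

theorem heckes_fx (hφ : ∀ j, IsHecke K (φ j)) (he : IsTyp K e) (L : List J) (g : G)
    (x y : G ⧸ K) : heckes K φ L (fx K e (g • x)) (g • y) = heckes K φ L (fx K e x) y := by
  rw [heckes_ops, heckes_ops, ops_smul]
  · congr 1
    funext z
    exact fx_inv he g x z
  · intro κ' h
    obtain ⟨j, _, rfl⟩ := List.mem_map.1 h
    exact kerOK (hφ j) _

theorem mom_smul (hφ : ∀ j, IsHecke K (φ j)) (he : IsTyp K e) (L L' : List J) (g : G)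
    (x : G ⧸ K) : mom K φ e L L' (g • x) = mom K φ e L L' x := by
  unfold mom
  rw [← finsum_comp_equiv (MulAction.toPerm g : Equiv.Perm (G ⧸ K))
    (f := fun y => heckes K φ L (fx K e (g • x)) y * conj (heckes K φ L' (fx K e (g • x)) y))]
  refine finsum_congr fun y => ?_
  show heckes K φ L (fx K e (g • x)) (g • y) * conj (heckes K φ L' (fx K e (g • x)) (g • y)) = _
  rw [heckes_fx hφ he, heckes_fx hφ he]

theorem mom_const (hφ : ∀ j, IsHecke K (φ j)) (he : IsTyp K e) (L L' : List J) (x x' : G ⧸ K) :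
    mom K φ e L L' x = mom K φ e L L' x' := by
  have h1 : x = (x.out * x'.out⁻¹) • x' := by
    rw [smul_out, inv_mul_cancel_right, mk_out']
  rw [h1, mom_smul hφ he]

theorem fx_sq (he : IsTyp K e) (x : G ⧸ K) : ∑ᶠ y, ‖fx K e x y‖ ^ 2 = esq K e := by
  unfold esq
  rw [← finsum_comp_equiv (MulAction.toPerm x.out : Equiv.Perm (G ⧸ K))
    (f := fun y => ‖fx K e x y‖ ^ 2)]
  refine finsum_congr fun y => ?_
  show ‖fx K e x (x.out • y)‖ ^ 2 = _
  unfold fx
  rw [RCLike.norm_conj, smul_out]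
  obtain ⟨κ, hκ⟩ := QuotientGroup.mk_out_eq_mul K (x.out * y.out)
  rw [hκ, ← mul_assoc, he.right _ κ.2, inv_mul_cancel_left]

theorem mom_nil (he : IsTyp K e) (x : G ⧸ K) : mom K φ e [] [] x = (esq K e : ℂ) := by
  have h1 : mom K φ e [] [] x = ∑ᶠ y, ((‖fx K e x y‖ ^ 2 : ℝ) : ℂ) := by
    unfold mom
    refine finsum_congr fun y => ?_
    show fx K e x y * conj (fx K e x y) = _
    rw [Complex.mul_conj']
    push_cast
    rfl
  rw [h1, ← fx_sq he x]
  have e2 := Complex.ofRealHom.toAddMonoidHom.map_finsum_of_injective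
    (RingHom.injective Complex.ofRealHom) (fun y : G ⧸ K => ‖fx K e x y‖ ^ 2)
  exact e2.symm

theorem esq_pos (he : IsTyp K e) : 0 < esq K e := by
  obtain ⟨g, hg⟩ := he.ne
  have hf : (Function.support fun y : G ⧸ K => ‖e y.out‖ ^ 2).Finite := by
    refine he.fin.subset ?_
    intro y hy
    rw [Function.mem_support] at hy
    intro h0
    apply hy
    rw [h0]
    simp
  have h1 : e (QuotientGroup.mk g : G ⧸ K).out ≠ 0 := by
    obtain ⟨κ, hκ⟩ := QuotientGroup.mk_out_eq_mul K g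
    rw [hκ, he.right _ κ.2]
    exact hg
  have h2 : ‖e (QuotientGroup.mk g : G ⧸ K).out‖ ^ 2 ≤ esq K e := by
    unfold esq
    exact single_le_finsum _ hf fun y => by positivity
  have h3 : 0 < ‖e (QuotientGroup.mk g : G ⧸ K).out‖ ^ 2 := by positivity
  linarith

end typ

end Pool.Agent.Helper61.XP
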